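import Pool.Agent.H767R2.PAL.Defs

/-!
B1: bounded on images implies bounded.
-/

namespace H767Pal

theorem b1_prefix {α : Type} (ψ : α → List α) (j m : ℕ) (hm : ∀ x, (app ψ j [x]).length ≤ m)
    (v : List α) : ∀ w : List α, w <+: app ψ j v →
    ∃ v' p, v' <+: v ∧ w = app ψ j v' ++ p ∧ p.length ≤ m := by
  induction v with
  | nil =>
    intro w hw
    rw [app_nil] at hw
    have hw0 : w = [] := List.prefix_nil.1 hw
    exact ⟨[], [], List.prefix_rfl, by rw [hw0, app_nil]; rfl, by simp⟩
  | cons x v ih =>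
    intro w hw
    rw [app_cons] at hw
    rcases List.prefix_or_prefix_of_prefix hw (List.prefix_append (app ψ j [x]) (app ψ j v)) with
      h | h
    · exact ⟨[], w, List.nil_prefix, by rw [app_nil]; rfl, h.length_le.trans (hm x)⟩
    · obtain ⟨t, rfl⟩ := h
      rw [List.prefix_append_right_inj] at hw
      obtain ⟨v', p, hv', rfl, hp⟩ := ih t hw
      refine ⟨x :: v', p, ?_, ?_, hp⟩
      · exact List.cons_prefix_cons.2 ⟨rfl, hv'⟩
      · rw [app_cons ψ j x v', List.append_assoc]

theorem b1_infix {α : Type} (ψ : α → List α) (j m : ℕ) (hm : ∀ x, (app ψ j [x]).length ≤ m)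
    (v : List α) : ∀ w : List α, w <:+: app ψ j v →
    ∃ s v' p, v' <:+: v ∧ w = s ++ (app ψ j v' ++ p) ∧ s.length ≤ m ∧ p.length ≤ m := by
  induction v with
  | nil =>
    intro w hw
    rw [app_nil] at hw
    have hw0 : w = [] := List.infix_nil.1 hw
    exact ⟨[], [], [], List.infix_rfl, by rw [hw0, app_nil]; rfl, by simp, by simp⟩
  | cons x v ih =>
    intro w hw
    rw [app_cons] at hw
    obtain ⟨a, b, hab⟩ := hw
    rw [List.append_assoc, List.append_eq_append_iff] at hab
    rcases hab with ⟨a', h1, h2⟩ | ⟨a', h1, h2⟩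
    · rw [List.append_eq_append_iff] at h2
      rcases h2 with ⟨t, h3, h4⟩ | ⟨t, h3, h4⟩
      · -- the word lies inside the first image
        refine ⟨w, [], [], List.nil_infix, by rw [app_nil]; simp, ?_, by simp⟩
        refine le_trans ?_ (hm x)
        rw [h1, h3]
        simp only [List.length_append]
        omega
      · obtain ⟨v', p, hv', rfl, hp⟩ := b1_prefix ψ j m hm v t ⟨b, h4.symm⟩
        refine ⟨a', v', p, ?_, h3, ?_, hp⟩
        · exact hv'.isInfix.trans (List.suffix_cons x v).isInfix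
        · refine le_trans ?_ (hm x)
          rw [h1, List.length_append]
          omega
    · obtain ⟨s, v', p, hv', hw, hs, hp⟩ := ih w ⟨a', b, by rw [h2, List.append_assoc]⟩
      exact ⟨s, v', p, hv'.trans (List.suffix_cons x v).isInfix, hw, hs, hp⟩

theorem t_B1 (hCB : S_CB) : S_B1 := by
  intro α _ ψ L σ π hL r S hS j ⟨C, hC⟩
  obtain ⟨C0, hC0⟩ := hCB α r S hS
  have hm : ∀ x, (app ψ j [x]).length ≤ Finset.univ.sup (fun x => (app ψ j [x]).length) :=
    fun x => Finset.le_sup (f := fun x => (app ψ j [x]).length) (Finset.mem_univ x)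
  generalize Finset.univ.sup (fun x => (app ψ j [x]).length) = m at hm
  obtain ⟨B, hB⟩ : ∃ B : ℚ, ∀ s : List α, s.length ≤ m → |S s| ≤ B := by
    have hfin : {s : List α | s.length ≤ m}.Finite := List.finite_length_le α m
    have hfin2 := hfin.image (fun s => |S s|)
    obtain ⟨B, hB⟩ := hfin2.bddAbove
    exact ⟨B, fun s hs => hB ⟨s, hs, rfl⟩⟩
  have hadd : ∀ u v, |S (u ++ v)| ≤ |S u| + |S v| + C0 := by
    intro u v
    have h1 := hC0 u v
    unfold cross at h1
    have h2 : S (u ++ v) = (S (u ++ v) - S u - S v) + (S u + S v) := by ring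
    rw [h2]
    refine (abs_add_le _ _).trans ?_
    have h3 := abs_add_le (S u) (S v)
    linarith
  rcases isEmpty_or_nonempty α with hemp | ⟨⟨x⟩⟩
  · refine ⟨0, fun w _ => ?_⟩
    have : w = [] := by
      cases w with
      | nil => rfl
      | cons x _ => exact hemp.elim x
    rw [this, hS.1, abs_zero]
  · refine ⟨B + (C + B + C0) + C0, fun w hw => ?_⟩
    obtain ⟨k0, hk0⟩ := hL.rcr w hw
    have h1 := hk0 (max k0 j) (le_max_left _ _) x
    have h2 : max k0 j = j + (max k0 j - j) := by
      have := le_max_right k0 j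
      omega
    rw [h2, app_add] at h1
    obtain ⟨s, v', p, hv', rfl, hs, hp⟩ := b1_infix ψ j m hm _ w h1
    have hv : v' ∈ L := hL.fac _ (hL.app_mem (max k0 j - j) x) v' hv'
    have h3 := hadd s (app ψ j v' ++ p)
    have h4 := hadd (app ψ j v') p
    have h5 := hB s hs
    have h6 := hB p hp
    have h7 := hC v' hv
    linarith

end H767Pal
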