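import Pool.Agent.H767R2.PAL.Defs

/-!
Task CB: crossing terms are bounded.
-/

namespace H767Pal

private theorem cb_left {α : Type} {r : ℕ} {S : List α → ℚ} (hS : Glue r S) (u v : List α) :
    cross S u v = cross S (u.drop (u.length - r)) v := by
  rcases Nat.lt_or_ge u.length r with h | h
  · rw [Nat.sub_eq_zero_of_le h.le, List.drop_zero]
  · have hlen : (u.drop (u.length - r)).length = r := by
      rw [List.length_drop]; omega
    have hg := hS.2 (u.take (u.length - r)) (u.drop (u.length - r)) v (by rw [hlen])
    rw [List.take_append_drop] at hg
    unfold cross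
    linarith

private theorem cb_right {α : Type} {r : ℕ} {S : List α → ℚ} (hS : Glue r S) (u v : List α) :
    cross S u v = cross S u (v.take r) := by
  rcases Nat.lt_or_ge v.length r with h | h
  · rw [List.take_of_length_le h.le]
  · have hlen : (v.take r).length = r := by
      rw [List.length_take]; omega
    have hg := hS.2 u (v.take r) (v.drop r) (by rw [hlen])
    rw [List.append_assoc, List.take_append_drop] at hg
    unfold cross
    linarith

/-- CB: crossing terms are bounded. -/
theorem t_CB : S_CB := by
  intro α _ r S hS
  have hfin : {l : List α | l.length ≤ r}.Finite := List.finite_length_le α r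
  have hfin2 := (hfin.prod hfin).image (fun q : List α × List α => |cross S q.1 q.2|)
  obtain ⟨C, hC⟩ := hfin2.bddAbove
  refine ⟨C, fun u v => ?_⟩
  rw [cb_left hS, cb_right hS]
  refine hC ⟨(u.drop (u.length - r), v.take r), ⟨?_, ?_⟩, rfl⟩
  · simp only [Set.mem_ofPred_eq, List.length_drop]; omega
  · simp only [Set.mem_ofPred_eq, List.length_take]; omega

end H767Pal
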