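import Pool.Agent.H767R2.PAL.Defs

/-!
# Right special words force complexity
-/

set_option autoImplicit false

namespace H767Pal

theorem cl_fin {α : Type} [Fintype α] (N : ℕ) (p : List α → Prop) :
    {w : List α | w.length = N ∧ p w}.Finite :=
  (List.finite_length_eq α N).subset fun _ hw => hw.1

theorem cl_step {α : Type} [Fintype α] (L : Set (List α))
    (hr : ∀ w ∈ L, ∃ a, w ++ [a] ∈ L) (N : ℕ) :
    Set.ncard {w : List α | w ∈ L ∧ w.length = N} + Set.ncard {w : List α | w.length = N ∧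
      ∃ a b, a ≠ b ∧ w ++ [a] ∈ L ∧ w ++ [b] ∈ L} ≤
    Set.ncard {w : List α | w ∈ L ∧ w.length = N + 1} := by
  classical
  -- the first extension
  have hF : ∀ w : List α, ∃ v : List α, w ∈ L → ∃ a, v = w ++ [a] ∧ v ∈ L := by
    intro w
    by_cases hw : w ∈ L
    · obtain ⟨a, ha⟩ := hr w hw
      exact ⟨w ++ [a], fun _ => ⟨a, rfl, ha⟩⟩
    · exact ⟨[], fun h => absurd h hw⟩
  choose F hF using hF
  have hG : ∀ w : List α, ∃ v : List α, (∃ a b, a ≠ b ∧ w ++ [a] ∈ L ∧ w ++ [b] ∈ L) →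
      ∃ a, v = w ++ [a] ∧ v ∈ L ∧ v ≠ F w := by
    intro w
    by_cases hw : ∃ a b, a ≠ b ∧ w ++ [a] ∈ L ∧ w ++ [b] ∈ L
    · obtain ⟨a, b, hab, ha, hb⟩ := hw
      by_cases h : w ++ [a] = F w
      · refine ⟨w ++ [b], fun _ => ⟨b, rfl, hb, ?_⟩⟩
        rw [← h]
        intro h'
        have := List.append_cancel_left h'
        simp only [List.cons.injEq, and_true] at this
        exact hab this.symm
      · exact ⟨w ++ [a], fun _ => ⟨a, rfl, ha, h⟩⟩
    · exact ⟨[], fun h => absurd h hw⟩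
  choose G hG using hG
  set A : Set (List α) := {w : List α | w ∈ L ∧ w.length = N} with hA
  set R : Set (List α) := {w : List α | w.length = N ∧
      ∃ a b, a ≠ b ∧ w ++ [a] ∈ L ∧ w ++ [b] ∈ L} with hR
  have hAf : A.Finite := (List.finite_length_eq α N).subset fun _ hw => hw.2
  have hRf : R.Finite := cl_fin N _
  have hBf : {w : List α | w ∈ L ∧ w.length = N + 1}.Finite :=
    (List.finite_length_eq α (N + 1)).subset fun _ hw => hw.2
  have dl : ∀ (w : List α) (a : α), (w ++ [a]).dropLast = w := by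
    intro w a
    simp
  have iF : Set.InjOn F A := by
    intro w hw v hv h
    obtain ⟨a, ha, -⟩ := hF w hw.1
    obtain ⟨b, hb, -⟩ := hF v hv.1
    rw [← dl w a, ← dl v b, ← ha, ← hb, h]
  have iG : Set.InjOn G R := by
    intro w hw v hv h
    obtain ⟨a, ha, -⟩ := hG w hw.2
    obtain ⟨b, hb, -⟩ := hG v hv.2
    rw [← dl w a, ← dl v b, ← ha, ← hb, h]
  have hd : Disjoint (F '' A) (G '' R) := by
    rw [Set.disjoint_left]
    rintro _ ⟨w, hw, rfl⟩ ⟨v, hv, h⟩
    obtain ⟨a, ha, -⟩ := hF w hw.1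
    obtain ⟨b, hb, -, hne⟩ := hG v hv.2
    have : w = v := by
      rw [← dl w a, ← dl v b, ← ha, ← hb, h]
    subst this
    exact hne h
  have hs : F '' A ∪ G '' R ⊆ {w : List α | w ∈ L ∧ w.length = N + 1} := by
    rintro _ (⟨w, hw, rfl⟩ | ⟨w, hw, rfl⟩)
    · obtain ⟨a, ha, hm⟩ := hF w hw.1
      refine ⟨hm, ?_⟩
      rw [ha, List.length_append, hw.2]
      rfl
    · obtain ⟨a, ha, hm, -⟩ := hG w hw.2
      refine ⟨hm, ?_⟩
      rw [ha, List.length_append, hw.1]
      rfl
  calc A.ncard + R.ncard = (F '' A).ncard + (G '' R).ncard := by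
        rw [iF.ncard_image, iG.ncard_image]
    _ = (F '' A ∪ G '' R).ncard :=
        (Set.ncard_union_eq hd (hAf.image F) (hRf.image G)).symm
    _ ≤ _ := Set.ncard_le_ncard hs hBf

theorem t_CL : S_CL := by
  intro α _ L _ hr J N0 hJ N hN
  induction N, hN using Nat.le_induction with
  | base => simp
  | succ N hN ih =>
    have h1 := cl_step L hr N
    have h2 := hJ N hN
    have h3 : J * (N + 1 - N0) = J * (N - N0) + J := by
      rw [Nat.succ_sub hN, Nat.mul_succ]
    rw [h3]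
    omega

end H767Pal
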