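import Pool.Agent.H767R2.PAL.Defs

/-!
Task CU: linear complexity.
-/

namespace H767Pal

theorem cu_up {α : Type} {ψ : α → List α} {r : ℕ} (hr : ∀ x, (ψ x).length ≤ r) (w : List α) :
    (w.flatMap ψ).length ≤ r * w.length := by
  induction w with
  | nil => simp
  | cons x w ih =>
    rw [List.flatMap_cons, List.length_append, List.length_cons]
    have := hr x
    nlinarith

theorem cu_up' {α : Type} {ψ : α → List α} {r : ℕ} (hr : ∀ x, (ψ x).length ≤ r) (t : ℕ)
    (w : List α) : (app ψ t w).length ≤ r ^ t * w.length := by
  induction t with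
  | zero => simp [app_zero]
  | succ t ih =>
    rw [app_succ']
    refine (cu_up hr _).trans ?_
    calc r * (app ψ t w).length ≤ r * (r ^ t * w.length) := Nat.mul_le_mul_left _ ih
      _ = r ^ (t + 1) * w.length := by ring

theorem cu_lo {α : Type} {ψ : α → List α} (hr : ∀ x, 2 ≤ (ψ x).length) (w : List α) :
    2 * w.length ≤ (w.flatMap ψ).length := by
  induction w with
  | nil => simp
  | cons x w ih =>
    rw [List.flatMap_cons, List.length_append, List.length_cons]
    have := hr x
    omega

theorem cu_lo' {α : Type} {ψ : α → List α} (hr : ∀ x, 2 ≤ (ψ x).length) (t : ℕ)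
    (w : List α) : 2 ^ t * w.length ≤ (app ψ t w).length := by
  induction t with
  | zero => simp [app_zero]
  | succ t ih =>
    rw [app_succ']
    refine le_trans ?_ (cu_lo hr _)
    calc 2 ^ (t + 1) * w.length = 2 * (2 ^ t * w.length) := by ring
      _ ≤ _ := Nat.mul_le_mul_left _ ih

theorem cu_two {α : Type} (ψ : α → List α) (k N : ℕ) (hN : 1 ≤ N)
    (hk : ∀ x, N ≤ (app ψ k [x]).length) (v : List α) :
    ∀ (i : ℕ) (w : List α), w.length = N → w = ((app ψ k v).drop i).take N →
      ∃ x y : α, ∃ j, j ≤ (app ψ k [x, y]).length ∧ w = ((app ψ k [x, y]).drop j).take N := by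
  induction v with
  | nil =>
    intro i w hw h
    rw [app_nil] at h
    simp only [List.drop_nil, List.take_nil] at h
    rw [h] at hw
    simp at hw
    omega
  | cons x v ih =>
    intro i w hw h
    rw [app_cons] at h
    by_cases hi : i ≤ (app ψ k [x]).length
    · rw [List.drop_append_of_le_length hi] at h
      cases v with
      | nil =>
        rw [app_nil, List.append_nil] at h
        refine ⟨x, x, i, ?_, ?_⟩
        · rw [app_cons ψ k x [x], List.length_append]
          omega
        · rw [app_cons ψ k x [x], List.drop_append_of_le_length hi]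
          have hlen : N ≤ ((app ψ k [x]).drop i).length := by
            by_contra hcon
            rw [h, List.length_take] at hw
            omega
          rw [List.take_append_of_le_length hlen]
          exact h
      | cons y v =>
        refine ⟨x, y, i, ?_, ?_⟩
        · rw [app_cons ψ k x [y], List.length_append]
          omega
        · rw [app_cons ψ k y v, ← List.append_assoc] at h
          have hy := hk y
          rw [List.take_append_of_le_length (by rw [List.length_append]; omega)] at h
          rw [app_cons ψ k x [y], List.drop_append_of_le_length hi]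
          exact h
    · push Not at hi
      refine ih (i - (app ψ k [x]).length) w hw ?_
      rw [h]
      congr 1
      rw [List.drop_append, List.drop_eq_nil_of_le hi.le, List.nil_append]

theorem t_CU : S_CU := by
  intro α _ ψ L σ π h
  classical
  rcases isEmpty_or_nonempty α with hα | hα
  · refine ⟨0, fun N hN => ?_⟩
    have : {w : List α | w ∈ L ∧ w.length = N} = ∅ := by
      ext w
      simp only [Set.mem_ofPred_eq, Set.mem_empty_iff_false, iff_false, not_and]
      intro _ hw
      cases w with
      | nil =>
        simp at hw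
        omega
      | cons x w => exact hα.elim x
    rw [this]
    simp
  obtain ⟨x0⟩ := hα
  set r := Finset.univ.sup fun x => (ψ x).length with hr
  have hr1 : ∀ x, (ψ x).length ≤ r := fun x =>
    Finset.le_sup (f := fun x => (ψ x).length) (Finset.mem_univ x)
  have hr2 : 2 ≤ r := (h.len x0).trans (hr1 x0)
  choose k0 hk0 using fun y => h.rcr [y] (h.letter y)
  set t := Finset.univ.sup k0 with ht
  have hcomp : ∀ (k : ℕ) (x y : α), (app ψ k [y]).length ≤ r ^ t * (app ψ k [x]).length := by
    intro k x y
    have h1 : [y] <:+: app ψ t [x] := hk0 y t (Finset.le_sup (Finset.mem_univ y)) x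
    have h2 := (app_infix ψ k h1).length_le
    rw [← app_add, add_comm, app_add] at h2
    exact h2.trans (cu_up' hr1 t _)
  refine ⟨Fintype.card α ^ 2 * (2 * (r * r ^ t) + 1), fun N hN => ?_⟩
  -- the level
  have hex : ∃ k, ∀ x, N ≤ (app ψ k [x]).length := by
    refine ⟨N, fun x => ?_⟩
    have := cu_lo' h.len N [x]
    simp only [List.length_cons, List.length_nil, zero_add, mul_one] at this
    exact (Nat.lt_two_pow_self).le.trans this
  obtain ⟨k, hk, hkM⟩ : ∃ k, (∀ x, N ≤ (app ψ k [x]).length) ∧
      ∀ x, (app ψ k [x]).length ≤ r * r ^ t * N := by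
    refine ⟨Nat.find hex, Nat.find_spec hex, fun x => ?_⟩
    rcases Nat.eq_zero_or_pos (Nat.find hex) with hz | hp
    · rw [hz, app_zero]
      simp only [List.length_cons, List.length_nil, zero_add]
      have : 0 < r * r ^ t * N := by positivity
      omega
    · obtain ⟨k', hk'⟩ := Nat.exists_eq_succ_of_ne_zero hp.ne'
      have h1 := Nat.find_min hex (m := k') (by omega)
      push Not at h1
      obtain ⟨y, hy⟩ := h1
      rw [hk', Nat.succ_eq_add_one, app_succ']
      refine (cu_up hr1 _).trans ?_
      have h2 := hcomp k' y x
      calc r * (app ψ k' [x]).length ≤ r * (r ^ t * (app ψ k' [y]).length) :=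
            Nat.mul_le_mul_left _ h2
        _ ≤ r * (r ^ t * N) := by gcongr
        _ = r * r ^ t * N := by ring
  -- the cover
  set M := r * r ^ t * N with hM
  have hsub : {w : List α | w ∈ L ∧ w.length = N} ⊆
      (((Finset.univ : Finset (α × α)) ×ˢ Finset.range (2 * M + 1)).image
        (fun p => ((app ψ k [p.1.1, p.1.2]).drop p.2).take N) : Finset (List α)) := by
    rintro w ⟨hwL, hwN⟩
    obtain ⟨K0, hK0⟩ := h.rcr w hwL
    have h1 := hK0 (k + K0) (by omega) x0
    rw [app_add] at h1
    obtain ⟨a, b, hab⟩ := h1
    have h2 : w = ((app ψ k (app ψ K0 [x0])).drop a.length).take N := by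
      rw [← hab, List.append_assoc, List.drop_left, ← hwN, List.take_left]
    obtain ⟨x, y, j, hj, hjw⟩ := cu_two ψ k N hN hk _ a.length w hwN h2
    simp only [Finset.coe_image, Set.mem_image, Finset.mem_coe, Finset.mem_product,
      Finset.mem_univ, true_and, Finset.mem_range]
    refine ⟨((x, y), j), ?_, hjw.symm⟩
    rw [app_cons, List.length_append] at hj
    have := hkM x
    have := hkM y
    simp only
    omega
  calc Set.ncard {w : List α | w ∈ L ∧ w.length = N}
      ≤ Set.ncard (((((Finset.univ : Finset (α × α)) ×ˢ Finset.range (2 * M + 1)).image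
        (fun p => ((app ψ k [p.1.1, p.1.2]).drop p.2).take N) : Finset (List α))) : Set (List α)) :=
        Set.ncard_le_ncard hsub (Finset.finite_toSet _)
    _ ≤ ((Finset.univ : Finset (α × α)) ×ˢ Finset.range (2 * M + 1)).card := by
        rw [Set.ncard_coe_finset]
        exact Finset.card_image_le
    _ = Fintype.card α ^ 2 * (2 * M + 1) := by
        rw [Finset.card_product, Finset.card_range, Finset.card_univ, Fintype.card_prod]
        ring
    _ ≤ Fintype.card α ^ 2 * (2 * (r * r ^ t) + 1) * N := by
        rw [mul_assoc]
        apply Nat.mul_le_mul_left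
        rw [hM]
        nlinarith

end H767Pal
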