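import Pool.Agent.H767R2.PAL.Defs

/-!
# Duality for bipartite graphs without cycles
-/

set_option autoImplicit false

namespace H767Pal

open Classical in
theorem t_DU : S_DU := by
  intro α _ E hE b
  let X : Type := {e : α × α // E e.1 e.2}
  letI iX : Fintype X := Fintype.ofFinite X
  set Φ : ((α → ℚ) × (α → ℚ)) →ₗ[ℚ] (X → ℚ) :=
    { toFun := fun pq e => pq.1 e.1.1 + pq.2 e.1.2
      map_add' := by
        intro a c
        funext e
        simp only [Prod.fst_add, Prod.snd_add, Pi.add_apply]
        ring
      map_smul' := by
        intro r a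
        funext e
        simp only [Prod.smul_fst, Prod.smul_snd, Pi.smul_apply, smul_eq_mul, RingHom.id_apply]
        ring } with hΦ
  have hsurj : Function.Surjective Φ := by
    rw [← LinearMap.dualMap_injective_iff, injective_iff_map_eq_zero]
    intro φ hφ
    set m : α → α → ℚ := fun x y =>
      if h : E x y then φ (Pi.single (⟨(x, y), h⟩ : X) 1) else 0 with hm
    have key : ∀ p q : α → ℚ, ∑ x, ∑ y, (p x + q y) * m x y = 0 := by
      intro p q
      have h1 : φ (Φ (p, q)) = 0 := by
        have := congrArg (fun ψ => ψ (p, q)) hφ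
        simpa using this
      have h2 : Φ (p, q) = ∑ e : X, (p e.1.1 + q e.1.2) • (Pi.single e (1 : ℚ) : X → ℚ) := by
        funext e
        rw [Finset.sum_apply]
        simp only [Pi.smul_apply, Pi.single_apply, smul_eq_mul, mul_ite, mul_one, mul_zero]
        rw [Finset.sum_ite_eq]
        simp [hΦ]
      rw [h2, map_sum] at h1
      simp only [map_smul, smul_eq_mul] at h1
      rw [← Fintype.sum_prod_type' (f := fun x y => (p x + q y) * m x y)]
      rw [← h1]
      have h3 : ∑ z : α × α, (p z.1 + q z.2) * m z.1 z.2 =
          ∑ z ∈ Finset.univ.filter (fun z : α × α => E z.1 z.2),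
            (p z.1 + q z.2) * m z.1 z.2 := by
        symm
        apply Finset.sum_filter_of_ne
        intro z _ hz
        by_contra hn
        apply hz
        rw [hm]
        simp [hn]
      rw [h3, @Finset.sum_subtype _ _ _ (fun z : α × α => E z.1 z.2) iX
        (Finset.univ.filter (fun z : α × α => E z.1 z.2)) (by simp)
        (fun z => (p z.1 + q z.2) * m z.1 z.2)]
      refine Finset.sum_congr rfl ?_
      intro e _
      have : m e.1.1 e.1.2 = φ (Pi.single e 1) := dif_pos e.2
      rw [this]
    have hrow : ∀ x, ∑ y, m x y = 0 := by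
      intro x
      have := key (Pi.single x 1) 0
      simpa [Pi.single_apply, ite_mul, Finset.sum_ite_eq] using this
    have hcol : ∀ y, ∑ x, m x y = 0 := by
      intro y
      have := key 0 (Pi.single y 1)
      simpa [Pi.single_apply, ite_mul, Finset.sum_ite_eq] using this
    have hm0 : m = 0 := by
      refine hE m ?_ hrow hcol
      intro x y hxy
      by_contra hn
      apply hxy
      rw [hm]
      simp [hn]
    refine LinearMap.pi_ext' fun e => ?_
    refine LinearMap.ext_ring ?_
    have h4 : m e.1.1 e.1.2 = φ (Pi.single e 1) := dif_pos e.2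
    rw [hm0] at h4
    simpa using h4.symm
  obtain ⟨pq, hpq⟩ := hsurj (fun e => b e.1.1 e.1.2)
  refine ⟨pq.1, pq.2, fun x y hxy => ?_⟩
  have := congrFun hpq ⟨(x, y), hxy⟩
  exact this.symm

end H767Pal
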