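import Mathlib

/-!
MP_f6e863_co: reversal-closed fixed points of primitive morphisms are palindromic.
Definitions, basic lemmas and the statements `S_X` of the independent tasks.
-/

namespace H767Pal

/-- `app ψ k w`: the `k`-th iterate of the morphism with letter images `ψ`, applied to `w`. -/
def app {α : Type} (ψ : α → List α) (k : ℕ) (w : List α) : List α :=
  (fun v : List α => v.flatMap ψ)^[k] w

/-- sum of `f` over all windows of length `n` (for `1 ≤ n`) of a word. -/
def W {α : Type} (n : ℕ) (f : List α → ℚ) : List α → ℚ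
  | [] => 0
  | (x :: l) => (if n ≤ l.length + 1 then f ((x :: l).take n) else 0) + W n f l

/-- gluing property (locality with range `r`) -/
def Glue {α : Type} (r : ℕ) (S : List α → ℚ) : Prop :=
  S [] = 0 ∧ ∀ a w b : List α, r ≤ w.length → S (a ++ w ++ b) + S w = S (a ++ w) + S (w ++ b)

/-- crossing term -/
def cross {α : Type} (S : List α → ℚ) (u v : List α) : ℚ := S (u ++ v) - S u - S v

/-- letter functional -/
def LF {α : Type} (c : α → ℚ) (w : List α) : ℚ := (w.map c).sum

/-- bounded on `L` -/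
def Bdd {α : Type} (L : Set (List α)) (S : List α → ℚ) : Prop := ∃ C : ℚ, ∀ w ∈ L, |S w| ≤ C

/-- indicator -/
noncomputable def ind (p : Prop) : ℚ := by classical exact if p then 1 else 0

/-- number of occurrences of `w` -/
noncomputable def occ {α : Type} (w : List α) : List α → ℚ := W w.length (fun t => ind (t = w))

/-- The language of a primitive morphism `ψ` (`L` closed under reversal), normalised: all images
have length at least 2 and the last-letter map `σ` and first-letter map `π` are idempotent. -/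
structure PL {α : Type} (ψ : α → List α) (L : Set (List α)) (σ π : α → α) : Prop where
  fac : ∀ w ∈ L, ∀ v, v <:+: w → v ∈ L
  letter : ∀ x, [x] ∈ L
  img : ∀ w ∈ L, w.flatMap ψ ∈ L
  rcr : ∀ w ∈ L, ∃ k0 : ℕ, ∀ k ≥ k0, ∀ x, w <:+: app ψ k [x]
  rev : ∀ w ∈ L, w.reverse ∈ L
  len : ∀ x, 2 ≤ (ψ x).length
  last : ∀ x, ∃ s, ψ x = s ++ [σ x]
  first : ∀ x, ∃ s, ψ x = π x :: s
  sig : ∀ x, σ (σ x) = σ x
  pie : ∀ x, π (π x) = π x

/-! ### basic lemmas -/

theorem app_zero {α : Type} (ψ : α → List α) (w : List α) : app ψ 0 w = w := rfl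

theorem app_succ {α : Type} (ψ : α → List α) (k : ℕ) (w : List α) :
    app ψ (k+1) w = app ψ k (w.flatMap ψ) := rfl

theorem app_succ' {α : Type} (ψ : α → List α) (k : ℕ) (w : List α) :
    app ψ (k+1) w = (app ψ k w).flatMap ψ := by
  unfold app; rw [Function.iterate_succ_apply']

theorem app_add {α : Type} (ψ : α → List α) (j k : ℕ) (w : List α) :
    app ψ (j+k) w = app ψ j (app ψ k w) := by
  unfold app; rw [Function.iterate_add_apply]

theorem app_append {α : Type} (ψ : α → List α) (k : ℕ) (u v : List α) :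
    app ψ k (u ++ v) = app ψ k u ++ app ψ k v := by
  induction k generalizing u v with
  | zero => rfl
  | succ k ih => rw [app_succ, app_succ, app_succ, List.flatMap_append, ih]

theorem app_nil {α : Type} (ψ : α → List α) (k : ℕ) : app ψ k [] = [] := by
  induction k with
  | zero => rfl
  | succ k ih => rw [app_succ]; simpa using ih

theorem app_cons {α : Type} (ψ : α → List α) (k : ℕ) (x : α) (v : List α) :
    app ψ k (x :: v) = app ψ k [x] ++ app ψ k v := by
  rw [← app_append]; rfl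

theorem app_infix {α : Type} (ψ : α → List α) (k : ℕ) {u v : List α} (h : u <:+: v) :
    app ψ k u <:+: app ψ k v := by
  obtain ⟨a, b, rfl⟩ := h
  exact ⟨app ψ k a, app ψ k b, by rw [app_append, app_append]⟩

theorem app_suffix {α : Type} (ψ : α → List α) (k : ℕ) {u v : List α} (h : u <:+ v) :
    app ψ k u <:+ app ψ k v := by
  obtain ⟨a, rfl⟩ := h
  exact ⟨app ψ k a, by rw [app_append]⟩

theorem app_prefix {α : Type} (ψ : α → List α) (k : ℕ) {u v : List α} (h : u <+: v) :
    app ψ k u <+: app ψ k v := by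
  obtain ⟨a, rfl⟩ := h
  exact ⟨app ψ k a, by rw [app_append]⟩

theorem PL.img_app {α : Type} {ψ : α → List α} {L : Set (List α)} {σ π : α → α}
    (h : PL ψ L σ π) (k : ℕ) {w : List α} (hw : w ∈ L) : app ψ k w ∈ L := by
  induction k with
  | zero => exact hw
  | succ k ih => rw [app_succ']; exact h.img _ ih

theorem PL.app_mem {α : Type} {ψ : α → List α} {L : Set (List α)} {σ π : α → α}
    (h : PL ψ L σ π) (k : ℕ) (x : α) : app ψ k [x] ∈ L := h.img_app k (h.letter x)

theorem ind_true {p : Prop} (h : p) : ind p = 1 := by unfold ind; simp [h]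
theorem ind_false {p : Prop} (h : ¬ p) : ind p = 0 := by unfold ind; simp [h]

/-! ### statements of the tasks -/

/-- GW: window functionals glue. -/
def S_GW : Prop := ∀ (α : Type) (n : ℕ) (f : List α → ℚ), 1 ≤ n → Glue n (W n f)

/-- RV: window functional of the reversed word. -/
def S_RV : Prop := ∀ (α : Type) (n : ℕ) (f : List α → ℚ), 1 ≤ n → ∀ w : List α,
  W n f w.reverse = W n (fun t => f t.reverse) w

/-- CB: crossing terms are bounded. -/
def S_CB : Prop := ∀ (α : Type) [Fintype α] (r : ℕ) (S : List α → ℚ), Glue r S →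
  ∃ C : ℚ, ∀ u v, |cross S u v| ≤ C

/-- B1: bounded on images implies bounded. -/
def S_B1 : Prop := ∀ (α : Type) [Fintype α] (ψ : α → List α) (L : Set (List α)) (σ π : α → α),
  PL ψ L σ π → ∀ (r : ℕ) (S : List α → ℚ), Glue r S → ∀ j : ℕ,
  (∃ C : ℚ, ∀ v ∈ L, |S (app ψ j v)| ≤ C) → Bdd L S

/-- KA: if the crossing terms are potentials, `S ∘ ψ^j` is a letter functional up to `O(1)`. -/
def S_KA : Prop := ∀ (α : Type) [Fintype α] (ψ : α → List α) (L : Set (List α)) (σ π : α → α),
  PL ψ L σ π → ∀ (r : ℕ) (S : List α → ℚ), Glue r S → ∀ j : ℕ,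
  (∀ x, r ≤ (app ψ j [x]).length) → ∀ (p q : α → ℚ),
  (∀ x y, [x, y] ∈ L → cross S (app ψ j [x]) (app ψ j [y]) = p x + q y) →
  ∃ (c : α → ℚ) (C : ℚ), ∀ v ∈ L, |S (app ψ j v) - LF c v| ≤ C

/-- KB: lifting of letter functionals (injective implies surjective). -/
def S_KB : Prop := ∀ (α : Type) [Fintype α] (ψ : α → List α) (L : Set (List α)) (σ π : α → α),
  PL ψ L σ π → ∀ (j : ℕ) (c : α → ℚ), ∃ (l : α → ℚ) (C : ℚ), ∀ v ∈ L,
  |LF l (app ψ j v) - LF c v| ≤ C

/-- LP: bounded functionals have potential crossing terms. -/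
def S_LP : Prop := ∀ (α : Type) [Fintype α] (ψ : α → List α) (L : Set (List α)) (σ π : α → α),
  PL ψ L σ π → ∀ (r : ℕ) (S : List α → ℚ), Glue r S →
  (∃ D : ℕ, 0 < D ∧ ∀ w, ∃ z : ℤ, (D : ℚ) * S w = z) → Bdd L S →
  ∃ k0 : ℕ, ∀ k ≥ k0, ∃ A B : α → ℚ, ∀ x y, [x, y] ∈ L →
    cross S (app ψ k [x]) (app ψ k [y]) = A x + B y

/-- OC: crossing formula for the number of occurrences. -/
def S_OC : Prop := ∀ (α : Type) (w : List α), w ≠ [] → ∀ u v : List α,
  cross (occ w) u v = ∑ i ∈ Finset.Ico 1 w.length, ind (w.take i <:+ u ∧ w.drop i <+: v)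

/-- DU: duality for bipartite graphs without cycles. -/
def S_DU : Prop := ∀ (α : Type) [Fintype α] (E : α → α → Prop),
  (∀ m : α → α → ℚ, (∀ x y, m x y ≠ 0 → E x y) → (∀ x, ∑ y, m x y = 0) →
    (∀ y, ∑ x, m x y = 0) → m = 0) →
  ∀ b : α → α → ℚ, ∃ p q : α → ℚ, ∀ x y, E x y → b x y = p x + q y

/-- CU: linear complexity. -/
def S_CU : Prop := ∀ (α : Type) [Fintype α] (ψ : α → List α) (L : Set (List α)) (σ π : α → α),
  PL ψ L σ π → ∃ C : ℕ, ∀ N : ℕ, 1 ≤ N → Set.ncard {w : List α | w ∈ L ∧ w.length = N} ≤ C * N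

/-- CL: right special words force complexity. -/
def S_CL : Prop := ∀ (α : Type) [Fintype α] (L : Set (List α)),
  (∀ w ∈ L, ∀ v, v <:+: w → v ∈ L) → (∀ w ∈ L, ∃ a, w ++ [a] ∈ L) → ∀ (J N0 : ℕ),
  (∀ N ≥ N0, J ≤ Set.ncard {w : List α | w.length = N ∧
    ∃ a b, a ≠ b ∧ w ++ [a] ∈ L ∧ w ++ [b] ∈ L}) →
  ∀ N ≥ N0, J * (N - N0) ≤ Set.ncard {w : List α | w ∈ L ∧ w.length = N}

/-- RI: the contradiction from infinitely many right special words. -/
def S_RI : Prop := ∀ (α : Type) [Fintype α] (ψ : α → List α) (L : Set (List α)) (σ π : α → α),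
  PL ψ L σ π → ∀ (c a a' e e' : α) (u : List α), u ≠ [] → a ≠ a' → e ≠ e' →
  σ c = c → π c = c → σ a = a → σ a' = a' → σ e = e → σ e' = e' → π e = e → π e' = e' →
  [e, c] ∈ L → [e', c] ∈ L →
  (∃ k, (a' :: u) <:+ app ψ k [c]) → (∃ k, (u.reverse ++ [a]) <+: app ψ k [c]) → False

/-- PA: parity: two antisymmetric window functionals of consecutive lengths are not both bounded. -/
def S_PA : Prop := ∀ (α : Type) [Fintype α] (ψ : α → List α) (L : Set (List α)) (σ π : α → α),
  PL ψ L σ π → Nonempty α → ∀ n : ℕ, 1 ≤ n → ∀ f g : List α → ℚ,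
  (∀ w, f w.reverse = - f w) → (∀ w, g w.reverse = - g w) →
  (∀ w ∈ L, w.length = n → f w = 1 ∨ f w = -1) →
  (∀ w ∈ L, w.length = n + 1 → g w = 1 ∨ g w = -1) →
  Bdd L (W n f) → Bdd L (W (n+1) g) → False

/-- the factors of the one-sided infinite word `u` -/
def Fac {α : Type} (u : ℕ → α) : Set (List α) :=
  {w | ∃ i, w = (List.range w.length).map (fun j => u (i + j))}

/-- primitivity -/
def Prim {α : Type} (φ : α → List α) : Prop :=
  ∃ k : ℕ, 1 ≤ k ∧ ∀ a b : α, b ∈ app φ k [a]

/-- `u` is a fixed point of `φ` -/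
def Fixed {α : Type} (φ : α → List α) (u : ℕ → α) : Prop :=
  ∀ n : ℕ, ((List.range n).map u).flatMap φ =
    (List.range (((List.range n).map u).flatMap φ).length).map u

/-- RE: reduction to the normalised situation. -/
def S_RE : Prop := ∀ (α : Type) [Fintype α] (φ : α → List α) (u : ℕ → α),
  Prim φ → Fixed φ u → (∀ w ∈ Fac u, w.reverse ∈ Fac u) → 2 ≤ Fintype.card α →
  ∃ (K : ℕ) (σ π : α → α), PL (fun x => app φ K [x]) (Fac u) σ π

/-- UR: infinitely many palindromes imply closure under reversal. -/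
def S_UR : Prop := ∀ (α : Type) [Fintype α] (φ : α → List α) (u : ℕ → α),
  Prim φ → Fixed φ u → Set.Infinite {w : List α | w ∈ Fac u ∧ w.reverse = w} →
  ∀ w ∈ Fac u, w.reverse ∈ Fac u

end H767Pal
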