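import Pool.Agent.H767R2.PAL.Defs

namespace H767Pal

theorem t_GW : S_GW := by
  intro α n f hn
  refine ⟨rfl, ?_⟩
  intro a w b hw
  induction a with
  | nil => simp only [List.nil_append]; ring
  | cons x a ih =>
    have e1 : x :: a ++ w ++ b = x :: (a ++ w ++ b) := by simp
    have e2 : x :: a ++ w = x :: (a ++ w) := by simp
    have t1 : W n f (x :: (a ++ w ++ b)) = f ((x :: (a ++ w ++ b)).take n) + W n f (a ++ w ++ b) := by
      rw [W, if_pos]
      simp only [List.length_append]; omega
    have t2 : W n f (x :: (a ++ w)) = f ((x :: (a ++ w)).take n) + W n f (a ++ w) := by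
      rw [W, if_pos]
      simp only [List.length_append]; omega
    have t3 : (x :: (a ++ w ++ b)).take n = (x :: (a ++ w)).take n := by
      have : x :: (a ++ w ++ b) = (x :: (a ++ w)) ++ b := by simp
      rw [this, List.take_append_of_le_length]
      simp only [List.length_cons, List.length_append]; omega
    rw [e1, e2, t1, t2, t3]
    linarith

end H767Pal
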