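import Pool.Agent.H767R2.PAL.Defs

/-!
Task KA of MP_f6e863_co: if the crossing terms are potentials, `S ∘ ψ^j` is a letter
functional up to `O(1)`.
-/

namespace H767Pal

theorem ka_step {α : Type} (ψ : α → List α) (r : ℕ) (S : List α → ℚ) (hS : Glue r S) (j : ℕ)
    (hr : ∀ x, r ≤ (app ψ j [x]).length) (x y : α) (v : List α) :
    S (app ψ j (x :: y :: v)) =
      cross S (app ψ j [x]) (app ψ j [y]) + S (app ψ j [x]) + S (app ψ j (y :: v)) := by
  have h := hS.2 (app ψ j [x]) (app ψ j [y]) (app ψ j v) (hr y)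
  have e1 : app ψ j (x :: y :: v) = app ψ j [x] ++ app ψ j [y] ++ app ψ j v := by
    rw [app_cons, app_cons ψ j y v, List.append_assoc]
  have e2 : app ψ j (y :: v) = app ψ j [y] ++ app ψ j v := app_cons ψ j y v
  rw [e1, e2]
  unfold cross
  linarith

theorem ka_formula {α : Type} (ψ : α → List α) (L : Set (List α))
    (hL : ∀ w ∈ L, ∀ v, v <:+: w → v ∈ L) (r : ℕ) (S : List α → ℚ) (hS : Glue r S) (j : ℕ)
    (hr : ∀ x, r ≤ (app ψ j [x]).length) (p q : α → ℚ)
    (hpq : ∀ x y, [x, y] ∈ L → cross S (app ψ j [x]) (app ψ j [y]) = p x + q y) :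
    ∀ (v : List α) (x : α), (x :: v) ∈ L → ∃ z : α,
      S (app ψ j (x :: v)) =
        LF (fun t => S (app ψ j [t]) + p t + q t) (x :: v) - q x - p z := by
  intro v
  induction v with
  | nil =>
    intro x _
    refine ⟨x, ?_⟩
    simp only [LF, List.map_cons, List.map_nil, List.sum_cons, List.sum_nil]
    ring
  | cons y v ih =>
    intro x hx
    have hy : (y :: v) ∈ L := hL _ hx _ ⟨[x], [], by simp⟩
    have hxy : [x, y] ∈ L := hL _ hx _ ⟨[], v, by simp⟩
    obtain ⟨z, hz⟩ := ih y hy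
    refine ⟨z, ?_⟩
    rw [ka_step ψ r S hS j hr x y v, hz, hpq x y hxy]
    simp only [LF, List.map_cons, List.sum_cons]
    ring

theorem t_KA : S_KA := by
  classical
  intro α _ ψ L σ π h r S hS j hr p q hpq
  refine ⟨fun t => S (app ψ j [t]) + p t + q t, (∑ x, |p x|) + ∑ x, |q x|, ?_⟩
  have hp : ∀ x, |p x| ≤ ∑ x, |p x| := fun x =>
    Finset.single_le_sum (f := fun x => |p x|) (fun i _ => abs_nonneg _) (Finset.mem_univ x)
  have hq : ∀ x, |q x| ≤ ∑ x, |q x| := fun x =>
    Finset.single_le_sum (f := fun x => |q x|) (fun i _ => abs_nonneg _) (Finset.mem_univ x)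
  intro v hv
  cases v with
  | nil =>
    rw [app_nil, hS.1]
    simp only [LF, List.map_nil, List.sum_nil, sub_zero, abs_zero]
    exact add_nonneg (Finset.sum_nonneg fun i _ => abs_nonneg _)
      (Finset.sum_nonneg fun i _ => abs_nonneg _)
  | cons x v =>
    obtain ⟨z, hz⟩ := ka_formula ψ L h.fac r S hS j hr p q hpq v x hv
    rw [hz]
    have e : LF (fun t => S (app ψ j [t]) + p t + q t) (x :: v) - q x - p z -
        LF (fun t => S (app ψ j [t]) + p t + q t) (x :: v) = -(p z + q x) := by ring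
    rw [e, abs_neg]
    exact (abs_add_le _ _).trans (add_le_add (hp z) (hq x))

end H767Pal
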