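import Pool.Agent.H767R2.PAL.Defs

set_option autoImplicit false

namespace H767Pal

theorem kb_LF_nil {α : Type} (c : α → ℚ) : LF c [] = 0 := by simp [LF]

theorem kb_LF_append {α : Type} (c : α → ℚ) (u v : List α) :
    LF c (u ++ v) = LF c u + LF c v := by simp [LF]

theorem kb_LF_cons {α : Type} (c : α → ℚ) (x : α) (v : List α) :
    LF c (x :: v) = c x + LF c v := by simp [LF]

theorem kb_LF_add {α : Type} (c d : α → ℚ) (v : List α) :
    LF (c + d) v = LF c v + LF d v := by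
  induction v with
  | nil => simp [LF]
  | cons x v ih => rw [kb_LF_cons, kb_LF_cons, kb_LF_cons, ih, Pi.add_apply]; ring

theorem kb_LF_smul {α : Type} (a : ℚ) (c : α → ℚ) (v : List α) :
    LF (a • c) v = a * LF c v := by
  induction v with
  | nil => simp [LF]
  | cons x v ih => rw [kb_LF_cons, kb_LF_cons, ih, Pi.smul_apply, smul_eq_mul]; ring

theorem kb_LF_sub {α : Type} (c d : α → ℚ) (v : List α) :
    LF (c - d) v = LF c v - LF d v := by
  induction v with
  | nil => simp [LF]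
  | cons x v ih => rw [kb_LF_cons, kb_LF_cons, kb_LF_cons, ih, Pi.sub_apply]; ring

theorem kb_glue {α : Type} (c : α → ℚ) : Glue 0 (LF c) := by
  refine ⟨kb_LF_nil c, ?_⟩
  intro a w b _
  simp only [kb_LF_append]
  ring

/-- the operator `T` -/
def kbT {α : Type} (ψ : α → List α) (j : ℕ) : (α → ℚ) →ₗ[ℚ] (α → ℚ) where
  toFun c x := LF c (app ψ j [x])
  map_add' c d := by
    funext x
    exact kb_LF_add c d _
  map_smul' a c := by
    funext x
    exact kb_LF_smul a c _

theorem kb_LF_T {α : Type} (ψ : α → List α) (j : ℕ) (c : α → ℚ) (v : List α) :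
    LF (kbT ψ j c) v = LF c (app ψ j v) := by
  induction v with
  | nil => rw [app_nil, kb_LF_nil, kb_LF_nil]
  | cons x v ih =>
    rw [kb_LF_cons, ih, app_cons, kb_LF_append]
    rfl

/-- bounded letter functionals -/
def kbB {α : Type} (L : Set (List α)) : Submodule ℚ (α → ℚ) where
  carrier := {c | Bdd L (LF c)}
  add_mem' := by
    rintro c d ⟨C, hC⟩ ⟨D, hD⟩
    refine ⟨C + D, fun w hw => ?_⟩
    rw [kb_LF_add]
    exact (abs_add_le _ _).trans (add_le_add (hC w hw) (hD w hw))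
  zero_mem' := by
    refine ⟨0, fun w _ => ?_⟩
    have : LF (0 : α → ℚ) w = 0 := by
      clear * -
      induction w with
      | nil => exact kb_LF_nil _
      | cons x v ih => rw [kb_LF_cons, ih]; simp
    rw [this]; simp
  smul_mem' := by
    rintro a c ⟨C, hC⟩
    refine ⟨|a| * C, fun w hw => ?_⟩
    rw [kb_LF_smul, abs_mul]
    exact mul_le_mul_of_nonneg_left (hC w hw) (abs_nonneg a)

theorem t_KB (hB1 : S_B1) : S_KB := by
  intro α _ ψ L σ π hP j c
  have hfw : ∀ c : α → ℚ, c ∈ kbB L → kbT ψ j c ∈ kbB L := by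
    rintro c ⟨C, hC⟩
    refine ⟨C, fun w hw => ?_⟩
    rw [kb_LF_T]
    exact hC _ (hP.img_app j hw)
  have hbw : ∀ c : α → ℚ, kbT ψ j c ∈ kbB L → c ∈ kbB L := by
    rintro c ⟨C, hC⟩
    refine hB1 α ψ L σ π hP 0 (LF c) (kb_glue c) j ⟨C, fun v hv => ?_⟩
    have := hC v hv
    rwa [kb_LF_T] at this
  have hle : kbB L ≤ (kbB L).comap (kbT ψ j) := fun c hc => hfw c hc
  let Tq := (kbB L).mapQ (kbB L) (kbT ψ j) hle
  have hinj : Function.Injective Tq := by
    rw [← LinearMap.ker_eq_bot, LinearMap.ker_eq_bot']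
    intro m hm
    obtain ⟨c, rfl⟩ := Submodule.mkQ_surjective _ m
    have h1 : (kbB L).mkQ (kbT ψ j c) = 0 := by simpa [Tq] using hm
    have h2 : kbT ψ j c ∈ kbB L := by
      rwa [Submodule.mkQ_apply, Submodule.Quotient.mk_eq_zero] at h1
    rw [Submodule.mkQ_apply, Submodule.Quotient.mk_eq_zero]
    exact hbw c h2
  have hsurj : Function.Surjective Tq := LinearMap.injective_iff_surjective.1 hinj
  obtain ⟨m, hm⟩ := hsurj ((kbB L).mkQ c)
  obtain ⟨l, rfl⟩ := Submodule.mkQ_surjective _ m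
  have h1 : (kbB L).mkQ (kbT ψ j l) = (kbB L).mkQ c := by simpa [Tq] using hm
  have h2 : kbT ψ j l - c ∈ kbB L := by
    rwa [Submodule.mkQ_apply, Submodule.mkQ_apply, Submodule.Quotient.eq] at h1
  obtain ⟨C, hC⟩ := h2
  refine ⟨l, C, fun v hv => ?_⟩
  have h3 := hC v hv
  rwa [kb_LF_sub, kb_LF_T] at h3

end H767Pal
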