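import Pool.Agent.H767R2.PAL.Defs

/-!
MP_f6e863_co, task LP: bounded functionals have potential crossing terms.
-/

namespace H767Pal

private theorem lp_flat_len {α : Type} {ψ : α → List α} (hl : ∀ x, 2 ≤ (ψ x).length)
    (w : List α) : 2 * w.length ≤ (w.flatMap ψ).length := by
  induction w with
  | nil => simp
  | cons x l ih =>
    rw [List.flatMap_cons, List.length_append, List.length_cons]
    have := hl x
    omega

private theorem lp_app_len {α : Type} {ψ : α → List α} (hl : ∀ x, 2 ≤ (ψ x).length)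
    (k : ℕ) (x : α) : k + 1 ≤ (app ψ k [x]).length := by
  induction k with
  | zero => simp [app_zero]
  | succ k ih =>
    rw [app_succ']
    have := lp_flat_len hl (app ψ k [x])
    omega

private theorem lp_star {α : Type} {r : ℕ} {S : List α → ℚ} (hS : Glue r S) (a w b : List α)
    (hw : r ≤ w.length) : S (a ++ w ++ b) = S (a ++ w) + S (w ++ b) - S w := by
  have := hS.2 a w b hw
  linarith

private theorem lp_max {α : Type} {L : Set (List α)} {r : ℕ} {S : List α → ℚ}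
    (hD : ∃ D : ℕ, 0 < D ∧ ∀ w, ∃ z : ℤ, (D : ℚ) * S w = z) (hB : Bdd L S)
    (hne : ∃ w ∈ L, r ≤ w.length) :
    ∃ w ∈ L, r ≤ w.length ∧ ∀ v ∈ L, r ≤ v.length → S v ≤ S w := by
  obtain ⟨D, hD0, hD⟩ := hD
  obtain ⟨C, hC⟩ := hB
  have hDp : (0 : ℚ) < D := by exact_mod_cast hD0
  have key := Int.exists_greatest_of_bdd
    (P := fun z : ℤ => ∃ w ∈ L, r ≤ w.length ∧ (D : ℚ) * S w = z)
    ⟨⌈(D : ℚ) * C⌉, by
      rintro z ⟨w, hw, -, hz⟩
      have h1 : (D : ℚ) * S w ≤ D * C :=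
        mul_le_mul_of_nonneg_left ((le_abs_self _).trans (hC w hw)) hDp.le
      have h2 : (z : ℚ) ≤ ⌈(D : ℚ) * C⌉ := by
        rw [← hz]
        exact h1.trans (Int.le_ceil _)
      exact_mod_cast h2⟩
    (by
      obtain ⟨w, hw, hr⟩ := hne
      obtain ⟨z, hz⟩ := hD w
      exact ⟨z, w, hw, hr, hz⟩)
  obtain ⟨z, ⟨w, hw, hr, hz⟩, hmax⟩ := key
  refine ⟨w, hw, hr, fun v hv hrv => ?_⟩
  obtain ⟨z', hz'⟩ := hD v
  have h1 := hmax z' ⟨v, hv, hrv, hz'⟩
  have h2 : (z' : ℚ) ≤ z := by exact_mod_cast h1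
  rw [← hz', ← hz] at h2
  exact le_of_mul_le_mul_left h2 hDp

private theorem lp_two {α : Type} {ψ : α → List α} {L : Set (List α)} {σ π : α → α}
    (h : PL ψ L σ π) (x0 : α) : ∃ x y, [x, y] ∈ L := by
  have h1 := h.app_mem 1 x0
  have h2 := lp_app_len h.len 1 x0
  match hw : app ψ 1 [x0] with
  | [] => rw [hw] at h2; simp at h2
  | [a] => rw [hw] at h2; simp at h2
  | a :: b :: l =>
    rw [hw] at h1
    exact ⟨a, b, h.fac _ h1 _ ⟨[], l, rfl⟩⟩

private theorem lp_join {α : Type} {ψ : α → List α} {L : Set (List α)} {σ π : α → α}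
    (h : PL ψ L σ π) (x0 : α) {u v : List α} (hu : u ∈ L) (hv : v ∈ L) :
    ∃ t, u ++ t ++ v ∈ L := by
  obtain ⟨x, y, hxy⟩ := lp_two h x0
  obtain ⟨k0, hk0⟩ := h.rcr u hu
  obtain ⟨k1, hk1⟩ := h.rcr v hv
  obtain ⟨a, b, hab⟩ := hk0 (max k0 k1) (le_max_left _ _) x
  obtain ⟨c, d, hcd⟩ := hk1 (max k0 k1) (le_max_right _ _) y
  have hL := h.img_app (max k0 k1) hxy
  rw [app_cons, ← hab, ← hcd] at hL
  refine ⟨b ++ c, h.fac _ hL _ ⟨a, d, ?_⟩⟩
  simp

private theorem lp_claim {α : Type} {ψ : α → List α} {L : Set (List α)} {σ π : α → α}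
    (h : PL ψ L σ π) (x0 : α) {r : ℕ} {S : List α → ℚ} (hS : Glue r S)
    (hD : ∃ D : ℕ, 0 < D ∧ ∀ w, ∃ z : ℤ, (D : ℚ) * S w = z) (hB : Bdd L S)
    {w : List α} (hw : w ∈ L) (hr : r ≤ w.length) (hmax : ∀ v ∈ L, r ≤ v.length → S v ≤ S w)
    {Y : List α} (hY : Y ∈ L) (hp : w <+: Y) (hs : w <:+ Y) : S Y = S w := by
  apply le_antisymm (hmax Y hY (hr.trans hp.length_le))
  by_contra hlt
  push Not at hlt
  have hpos : 0 < S w - S Y := by linarith
  obtain ⟨C, hC⟩ := hB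
  have key : ∀ N : ℕ, ∃ z ∈ L, w <+: z ∧ w <:+ z ∧ S z ≤ S w - N * (S w - S Y) := by
    intro N
    induction N with
    | zero => exact ⟨w, hw, List.prefix_rfl, List.suffix_rfl, by simp⟩
    | succ N ih =>
      obtain ⟨z, hz, hzp, hzs, hzS⟩ := ih
      obtain ⟨t, ht⟩ := lp_join h x0 hz hY
      refine ⟨z ++ t ++ Y, ht, ?_, ?_, ?_⟩
      · rw [List.append_assoc]
        exact hzp.trans (List.prefix_append _ _)
      · exact hs.trans (List.suffix_append _ _)
      · obtain ⟨c, rfl⟩ := hzs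
        obtain ⟨d, rfl⟩ := hp
        have e1 : S (c ++ w ++ t ++ (w ++ d)) = S (c ++ w) + S (w ++ (t ++ (w ++ d))) - S w := by
          rw [← lp_star hS c w (t ++ (w ++ d)) hr]
          simp
        have e2 : S (w ++ (t ++ (w ++ d))) = S (w ++ t ++ w) + S (w ++ d) - S w := by
          rw [← lp_star hS (w ++ t) w d hr]
          simp
        have e3 : S (w ++ t ++ w) ≤ S w := by
          apply hmax
          · apply h.fac _ ht
            exact ⟨c, d, by simp⟩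
          · simp; omega
        rw [e1, e2]
        push_cast
        linarith
  obtain ⟨N, hN⟩ := exists_nat_gt ((S w + C) / (S w - S Y))
  obtain ⟨z, hz, -, -, hzS⟩ := key N
  have h1 := (abs_le.1 (hC z hz)).1
  rw [div_lt_iff₀ hpos] at hN
  linarith

theorem t_LP : S_LP := by
  intro α _ ψ L σ π h r S hS hD hB
  by_cases hα : Nonempty α
  swap
  · exact ⟨0, fun k _ => ⟨fun _ => 0, fun _ => 0, fun x => (hα ⟨x⟩).elim⟩⟩
  obtain ⟨x0⟩ := hα
  obtain ⟨w, hw, hr, hmax⟩ := lp_max (r := r) hD hB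
    ⟨app ψ r [x0], h.app_mem r x0, by have := lp_app_len h.len r x0; omega⟩
  obtain ⟨k0, hk0⟩ := h.rcr w hw
  refine ⟨k0, fun k hk => ?_⟩
  have hab : ∀ x, ∃ p : List α × List α, p.1 ++ w ++ p.2 = app ψ k [x] := by
    intro x
    obtain ⟨a, b, hab⟩ := hk0 k hk x
    exact ⟨(a, b), hab⟩
  choose p hp using hab
  refine ⟨fun x => S ((p x).1 ++ w) - S (app ψ k [x]),
    fun y => S (w ++ (p y).2) - S w - S (app ψ k [y]), fun x y hxy => ?_⟩
  have hL := h.img_app k hxy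
  rw [app_cons] at hL
  unfold cross
  rw [← hp x, ← hp y] at hL ⊢
  have e1 : S ((p x).1 ++ w ++ (p x).2 ++ ((p y).1 ++ w ++ (p y).2)) =
      S ((p x).1 ++ w) + S (w ++ ((p x).2 ++ ((p y).1 ++ (w ++ (p y).2)))) - S w := by
    rw [← lp_star hS (p x).1 w _ hr]
    simp
  have e2 : S (w ++ ((p x).2 ++ ((p y).1 ++ (w ++ (p y).2)))) =
      S (w ++ ((p x).2 ++ (p y).1) ++ w) + S (w ++ (p y).2) - S w := by
    rw [← lp_star hS (w ++ ((p x).2 ++ (p y).1)) w _ hr]
    simp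
  have e3 : S (w ++ ((p x).2 ++ (p y).1) ++ w) = S w := by
    apply lp_claim h x0 hS hD hB hw hr hmax
    · apply h.fac _ hL
      exact ⟨(p x).1, (p y).2, by simp⟩
    · rw [List.append_assoc]
      exact List.prefix_append _ _
    · exact List.suffix_append _ _
  rw [e1, e2, e3, hp x, hp y]
  ring

end H767Pal
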