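import Pool.Agent.H767R2.PAL.Defs

/-!
Task OC: crossing formula for the number of occurrences.
-/

namespace H767Pal

theorem oc_ind_congr {p q : Prop} (h : p ↔ q) : ind p = ind q := by rw [propext h]

theorem oc_cons {α : Type} (w : List α) (x : α) (l : List α) :
    occ w (x :: l) = ind (w <+: x :: l) + occ w l := by
  unfold occ
  rw [W]
  congr 1
  by_cases h : w.length ≤ l.length + 1
  · rw [if_pos h]
    apply oc_ind_congr
    rw [List.prefix_iff_eq_take]
    exact eq_comm
  · rw [if_neg h, ind_false]
    intro h1
    exact h (by simpa using h1.length_le)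

/-- splitting a prefix of a concatenation -/
theorem oc_prefix {α : Type} (w a v : List α) :
    w <+: a ++ v ↔ w <+: a ∨ (w.take a.length = a ∧ w.drop a.length <+: v) := by
  constructor
  · intro h
    rcases List.prefix_or_prefix_of_prefix h (List.prefix_append a v) with h1 | h1
    · exact Or.inl h1
    · obtain ⟨t, rfl⟩ := h1
      right
      rw [List.prefix_append_right_inj] at h
      rw [List.take_left', List.drop_left']
      · exact ⟨rfl, h⟩
      · rfl
      · rfl
  · rintro (h | ⟨h1, h2⟩)
    · exact h.trans (List.prefix_append a v)
    · obtain ⟨t, ht⟩ := h2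
      refine ⟨t, ?_⟩
      rw [← ht, ← List.append_assoc]
      congr 1
      conv_lhs => rw [← List.take_append_drop a.length w]
      rw [h1]

theorem oc_step {α : Type} (w : List α) (x : α) (u v : List α) :
    ind (w <+: x :: (u ++ v)) = ind (w <+: x :: u) +
      ∑ i ∈ Finset.Ico 1 w.length, ind (w.take i = x :: u ∧ w.drop i <+: v) := by
  have h0 := oc_prefix w (x :: u) v
  rw [List.cons_append] at h0
  by_cases h : (x :: u).length < w.length
  · have h1 : ¬ w <+: x :: u := fun h1 => absurd h1.length_le (by omega)
    rw [ind_false h1, zero_add, Finset.sum_eq_single (x :: u).length]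
    · apply oc_ind_congr
      rw [h0]
      constructor
      · exact fun h2 => h2.resolve_left h1
      · exact fun h2 => Or.inr h2
    · intro i hi hne
      rw [Finset.mem_Ico] at hi
      apply ind_false
      rintro ⟨h2, -⟩
      apply hne
      rw [← h2, List.length_take]
      omega
    · intro h2
      exfalso
      apply h2
      rw [Finset.mem_Ico]
      exact ⟨by simp, h⟩
  · rw [Finset.sum_eq_zero, add_zero]
    · apply oc_ind_congr
      rw [h0]
      constructor
      · rintro (h2 | ⟨h2, h3⟩)
        · exact h2
        · rw [List.take_of_length_le (by omega)] at h2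
          rw [h2]
      · exact fun h2 => Or.inl h2
    · intro i hi
      rw [Finset.mem_Ico] at hi
      apply ind_false
      rintro ⟨h2, -⟩
      apply h
      rw [← h2, List.length_take]
      omega

theorem t_OC : S_OC := by
  intro α w hw u v
  induction u with
  | nil =>
    rw [Finset.sum_eq_zero]
    · simp [cross, occ, W]
    · intro i hi
      rw [Finset.mem_Ico] at hi
      apply ind_false
      rintro ⟨h2, -⟩
      rw [List.suffix_nil] at h2
      have := congrArg List.length h2
      rw [List.length_take, List.length_nil] at this
      omega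
  | cons x u ih =>
    have h1 : cross (occ w) (x :: u) v =
        ind (w <+: x :: (u ++ v)) - ind (w <+: x :: u) + cross (occ w) u v := by
      unfold cross
      rw [List.cons_append, oc_cons, oc_cons]
      ring
    rw [h1, oc_step, ih, add_sub_cancel_left, ← Finset.sum_add_distrib]
    refine Finset.sum_congr rfl fun i hi => ?_
    rw [Finset.mem_Ico] at hi
    by_cases h2 : w.take i = x :: u ∧ w.drop i <+: v
    · rw [ind_true h2]
      have h3 : ¬ (w.take i <:+ u ∧ w.drop i <+: v) := by
        rintro ⟨h3, -⟩
        rw [h2.1] at h3
        have := h3.length_le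
        simp at this
      rw [ind_false h3, add_zero]
      symm
      apply ind_true
      exact ⟨h2.1 ▸ List.suffix_rfl, h2.2⟩
    · rw [ind_false h2, zero_add]
      apply oc_ind_congr
      rw [List.suffix_cons_iff]
      constructor
      · exact fun h3 => ⟨Or.inr h3.1, h3.2⟩
      · rintro ⟨h3 | h3, h4⟩
        · exact absurd ⟨h3, h4⟩ h2
        · exact ⟨h3, h4⟩

end H767Pal
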