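import Pool.Agent.H767R2.PAL.Defs

set_option autoImplicit false

/-! Task PA: parity contradiction. -/

namespace H767Pal

variable {α : Type}

theorem pa_short (n : ℕ) (f : List α → ℚ) (w : List α) (h : w.length < n) : W n f w = 0 := by
  induction w with
  | nil => rfl
  | cons x l ih =>
    simp only [List.length_cons] at h
    rw [W, if_neg (by omega), ih (by omega), add_zero]

theorem pa_exact (n : ℕ) (f : List α → ℚ) (w : List α) (hn : 1 ≤ n) (h : w.length = n) :
    W n f w = f w := by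
  cases w with
  | nil => simp at h; omega
  | cons x l =>
    simp only [List.length_cons] at h
    rw [W, if_pos (by omega), pa_short n f l (by omega), add_zero, List.take_of_length_le]
    simp only [List.length_cons]
    omega

theorem pa_split (n : ℕ) (f : List α → ℚ) (a c b : List α) (hc : c.length + 1 = n) :
    W n f (a ++ c ++ b) = W n f (a ++ c) + W n f (c ++ b) := by
  induction a with
  | nil =>
    rw [List.nil_append, pa_short n f c (by omega), zero_add]
  | cons x l ih =>
    simp only [List.cons_append]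
    rw [W, W, ih]
    have h1 : n ≤ (l ++ c ++ b).length + 1 := by simp only [List.length_append]; omega
    have h2 : n ≤ (l ++ c).length + 1 := by simp only [List.length_append]; omega
    rw [if_pos h1, if_pos h2]
    have h3 : (x :: (l ++ c ++ b)).take n = (x :: (l ++ c)).take n := by
      rw [← List.cons_append, List.take_append_of_le_length]
      simp only [List.length_cons]
      omega
    rw [h3]
    ring

theorem pa_neg (n : ℕ) (f : List α → ℚ) (w : List α) : W n (fun t => - f t) w = - W n f w := by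
  induction w with
  | nil => simp [W]
  | cons x l ih =>
    rw [W, W, ih]
    split_ifs <;> ring

theorem pa_int (L : Set (List α)) (hfac : ∀ w ∈ L, ∀ v, v <:+: w → v ∈ L) (n : ℕ) (hn : 1 ≤ n)
    (f : List α → ℚ) (hf : ∀ w ∈ L, w.length = n → f w = 1 ∨ f w = -1) (w : List α) (hw : w ∈ L)
    (hlen : n ≤ w.length + 1) :
    ∃ m : ℤ, W n f w = m ∧ (2 : ℤ) ∣ m - (w.length + 1 - n) := by
  induction w with
  | nil =>
    refine ⟨0, by simp [W], ?_⟩
    simp only [List.length_nil] at hlen ⊢
    have : n = 1 := by omega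
    subst this
    simp
  | cons x l ih =>
    simp only [List.length_cons] at hlen ⊢
    by_cases h1 : n ≤ l.length + 1
    · have hl : l ∈ L := hfac _ hw _ ⟨[x], [], by simp⟩
      obtain ⟨m, hm1, hm2⟩ := ih hl h1
      have ht : (x :: l).take n ∈ L := hfac _ hw _ (List.take_prefix n _).isInfix
      have htl : ((x :: l).take n).length = n := by
        rw [List.length_take]
        simp only [List.length_cons]
        omega
      rw [W, if_pos h1, hm1]
      rcases hf _ ht htl with h2 | h2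
      · refine ⟨1 + m, by rw [h2]; push_cast; ring, ?_⟩
        push_cast
        obtain ⟨q, hq⟩ := hm2
        exact ⟨q, by linarith⟩
      · refine ⟨-1 + m, by rw [h2]; push_cast; ring, ?_⟩
        push_cast
        obtain ⟨q, hq⟩ := hm2
        exact ⟨q - 1, by linarith⟩
    · refine ⟨0, ?_, ?_⟩
      · rw [pa_short n f _ (by simp only [List.length_cons]; omega)]
        simp
      · have : n = l.length + 2 := by omega
        subst this
        push_cast
        exact ⟨0, by ring⟩

theorem pa_int' (L : Set (List α)) (hfac : ∀ w ∈ L, ∀ v, v <:+: w → v ∈ L) (n : ℕ) (hn : 1 ≤ n)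
    (f : List α → ℚ) (hf : ∀ w ∈ L, w.length = n → f w = 1 ∨ f w = -1) (w : List α) (hw : w ∈ L) :
    ∃ m : ℤ, W n f w = m := by
  by_cases h : n ≤ w.length + 1
  · obtain ⟨m, hm, -⟩ := pa_int L hfac n hn f hf w hw h
    exact ⟨m, hm⟩
  · exact ⟨0, by rw [pa_short n f w (by omega)]; simp⟩

/-- differences of values at prefixes are bounded by the maximum -/
theorem pa_bound1 (L : Set (List α)) (hfac : ∀ w ∈ L, ∀ v, v <:+: w → v ∈ L) (n : ℕ) (hn : 1 ≤ n)
    (f : List α → ℚ) (M : ℚ) (hM : ∀ v ∈ L, |W n f v| ≤ M) (u t : List α) (h : u ++ t ∈ L)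
    (hu : n ≤ u.length + 1) : |W n f (u ++ t) - W n f u| ≤ M := by
  obtain ⟨a, c, hac, hc⟩ : ∃ a c : List α, u = a ++ c ∧ c.length + 1 = n := by
    refine ⟨u.take (u.length - (n - 1)), u.drop (u.length - (n - 1)), by simp, ?_⟩
    rw [List.length_drop]
    omega
  subst hac
  rw [pa_split n f a c t hc, add_sub_cancel_left]
  exact hM _ (hfac _ h _ ⟨a, [], by simp⟩)

theorem pa_bound (L : Set (List α)) (hfac : ∀ w ∈ L, ∀ v, v <:+: w → v ∈ L) (n : ℕ) (hn : 1 ≤ n)
    (f : List α → ℚ) (M : ℚ) (hM : ∀ v ∈ L, |W n f v| ≤ M) (Z u v : List α) (h : Z ∈ L)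
    (hu : n ≤ u.length + 1) (hv : n ≤ v.length + 1) (huZ : u <+: Z) (hvZ : v <+: Z) :
    |W n f v - W n f u| ≤ M := by
  rcases le_total u.length v.length with h1 | h1
  · obtain ⟨t, rfl⟩ := List.prefix_of_prefix_length_le huZ hvZ h1
    exact pa_bound1 L hfac n hn f M hM u t (hfac _ h _ hvZ.isInfix) hu
  · obtain ⟨t, rfl⟩ := List.prefix_of_prefix_length_le hvZ huZ h1
    rw [abs_sub_comm]
    exact pa_bound1 L hfac n hn f M hM v t (hfac _ h _ huZ.isInfix) hv

/-- the value gained along an occurrence -/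
theorem pa_gain (n : ℕ) (hn : 1 ≤ n) (f : List α → ℚ) (p w : List α) (hw : n ≤ w.length + 1) :
    W n f (p ++ w) = W n f (p ++ w.take (n - 1)) + W n f w := by
  have h := pa_split n f p (w.take (n - 1)) (w.drop (n - 1)) (by
    rw [List.length_take]; omega)
  rw [List.append_assoc, List.take_append_drop] at h
  exact h

theorem pa_key (hRV : S_RV) (L : Set (List α)) (hfac : ∀ w ∈ L, ∀ v, v <:+: w → v ∈ L)
    (n : ℕ) (hn : 1 ≤ n)
    (f : List α → ℚ) (hfr : ∀ w, f w.reverse = - f w)
    (hf : ∀ w ∈ L, w.length = n → f w = 1 ∨ f w = -1)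
    (M : ℚ) (hM : ∀ v ∈ L, |W n f v| ≤ M) (w : List α) (hwM : W n f w = M)
    (hwl : n ≤ w.length + 1) (Z : List α) (hZ : Z ∈ L) (p q p' q' : List α)
    (h1 : Z = p ++ w ++ q) (h2 : Z = p' ++ w.reverse ++ q') :
    (2 : ℤ) ∣ (p.length + w.length) - (p'.length + n - 1) := by
  have hrev : W n f w.reverse = - M := by
    rw [hRV α n f hn w]
    have : (fun t => f t.reverse) = fun t => - f t := by
      funext t; exact hfr t
    rw [this, pa_neg, hwM]
  have e1 := pa_gain n hn f p w hwl
  have e2 := pa_gain n hn f p' w.reverse (by rw [List.length_reverse]; exact hwl)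
  rw [hwM] at e1
  rw [hrev] at e2
  have pX : p ++ w <+: Z := ⟨q, h1.symm⟩
  have pX0 : p ++ w.take (n - 1) <+: Z := by
    refine List.IsPrefix.trans ?_ pX
    exact (List.prefix_append_right_inj p).2 (List.take_prefix _ _)
  have pY1 : p' ++ w.reverse <+: Z := ⟨q', h2.symm⟩
  have pY : p' ++ w.reverse.take (n - 1) <+: Z := by
    refine List.IsPrefix.trans ?_ pY1
    exact (List.prefix_append_right_inj p').2 (List.take_prefix _ _)
  have lX : n ≤ (p ++ w).length + 1 := by simp only [List.length_append]; omega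
  have lX0 : n ≤ (p ++ w.take (n - 1)).length + 1 := by
    simp only [List.length_append, List.length_take]; omega
  have lY1 : n ≤ (p' ++ w.reverse).length + 1 := by
    simp only [List.length_append, List.length_reverse]; omega
  have lYe : (p' ++ w.reverse.take (n - 1)).length = p'.length + (n - 1) := by
    simp only [List.length_append, List.length_take, List.length_reverse]; omega
  have lY : n ≤ (p' ++ w.reverse.take (n - 1)).length + 1 := by
    rw [lYe]; omega
  have b1 := abs_le.1 (pa_bound L hfac n hn f M hM Z _ _ hZ lX0 lY pX0 pY)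
  have b2 := abs_le.1 (pa_bound L hfac n hn f M hM Z _ _ hZ lY1 lX pY1 pX)
  have e3 : W n f (p ++ w) = W n f (p' ++ w.reverse.take (n - 1)) := by linarith [b1.2, b2.2]
  obtain ⟨m, hm1, hm2⟩ := pa_int L hfac n hn f hf _ (hfac _ hZ _ pX.isInfix) lX
  obtain ⟨m', hm1', hm2'⟩ := pa_int L hfac n hn f hf _ (hfac _ hZ _ pY.isInfix) lY
  have e4 : m = m' := by
    rw [hm1, hm1'] at e3
    exact_mod_cast e3
  subst e4
  rw [lYe] at hm2'
  rw [List.length_append] at hm2
  push_cast at hm2 hm2'
  have e5 : ((n - 1 : ℕ) : ℤ) = n - 1 := by omega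
  rw [e5] at hm2'
  have := dvd_sub hm2' hm2
  have e6 : m - ((p'.length : ℤ) + (n - 1) + 1 - n) - (m - (p.length + w.length + 1 - n)) =
      (p.length + w.length) - (p'.length + n - 1) := by ring
  rwa [e6] at this

/-- the maximiser -/
theorem pa_max (hRV : S_RV) (L : Set (List α)) (hfac : ∀ w ∈ L, ∀ v, v <:+: w → v ∈ L)
    (hrev : ∀ w ∈ L, w.reverse ∈ L) (n : ℕ) (hn : 1 ≤ n) (hex : ∃ v ∈ L, n ≤ v.length)
    (f : List α → ℚ) (hfr : ∀ w, f w.reverse = - f w)
    (hf : ∀ w ∈ L, w.length = n → f w = 1 ∨ f w = -1) (hB : Bdd L (W n f)) :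
    ∃ w ∈ L, n ≤ w.length + 1 ∧ ∀ v ∈ L, |W n f v| ≤ W n f w := by
  obtain ⟨C, hC⟩ := hB
  obtain ⟨v0, hv0, hl0⟩ := hex
  obtain ⟨m0, hm0⟩ := pa_int' L hfac n hn f hf v0 hv0
  obtain ⟨ub, ⟨w, hw, hwu⟩, hub⟩ := Int.exists_greatest_of_bdd (P := fun m : ℤ =>
    ∃ v ∈ L, W n f v = m) ⟨⌈C⌉, by
      rintro z ⟨v, hv, hvz⟩
      have h1 : (z : ℚ) ≤ C := by rw [← hvz]; exact (le_abs_self _).trans (hC v hv)
      exact_mod_cast h1.trans (Int.le_ceil C)⟩ ⟨m0, v0, hv0, hm0⟩
  have hle : ∀ v ∈ L, W n f v ≤ W n f w := by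
    intro v hv
    obtain ⟨m, hm⟩ := pa_int' L hfac n hn f hf v hv
    rw [hm, hwu]
    exact_mod_cast hub m ⟨v, hv, hm⟩
  have hrv : ∀ v, W n f v.reverse = - W n f v := by
    intro v
    rw [hRV α n f hn v]
    have : (fun t => f t.reverse) = fun t => - f t := by
      funext t; exact hfr t
    rw [this, pa_neg]
  have habs : ∀ v ∈ L, |W n f v| ≤ W n f w := by
    intro v hv
    rw [abs_le]
    refine ⟨?_, hle v hv⟩
    have := hle _ (hrev v hv)
    rw [hrv] at this
    linarith
  refine ⟨w, hw, ?_, habs⟩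
  by_contra hcon
  have h0 : W n f w = 0 := pa_short n f w (by omega)
  have ht : v0.take n ∈ L := hfac _ hv0 _ (List.take_prefix _ _).isInfix
  have htl : (v0.take n).length = n := by rw [List.length_take]; omega
  have := habs _ ht
  rw [pa_exact n f _ hn htl, h0] at this
  rcases hf _ ht htl with h1 | h1 <;> rw [h1] at this <;> norm_num at this

theorem pa_long {ψ : α → List α} {L : Set (List α)} {σ π : α → α} (h : PL ψ L σ π) (x : α)
    (n : ℕ) : ∃ v ∈ L, n ≤ v.length := by
  have hl : ∀ w : List α, 2 * w.length ≤ (w.flatMap ψ).length := by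
    intro w
    induction w with
    | nil => simp
    | cons y l ih =>
      have := h.len y
      simp only [List.flatMap_cons, List.length_append, List.length_cons]
      omega
  induction n with
  | zero => exact ⟨[x], h.letter x, Nat.zero_le _⟩
  | succ n ih =>
    obtain ⟨v, hv, hvn⟩ := ih
    rcases Nat.eq_zero_or_pos n with h0 | h0
    · exact ⟨[x], h.letter x, by simp [h0]⟩
    · refine ⟨v.flatMap ψ, h.img v hv, ?_⟩
      have := hl v
      omega

theorem t_PA (hRV : S_RV) : S_PA := by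
  intro α _ ψ L σ π hPL hne n hn f g hfr hgr hf hg hBf hBg
  obtain ⟨x⟩ := hne
  obtain ⟨w, hw, hwl, hwM⟩ := pa_max hRV L hPL.fac hPL.rev n hn (pa_long hPL x n) f hfr hf hBf
  obtain ⟨w', hw', hwl', hwM'⟩ := pa_max hRV L hPL.fac hPL.rev (n + 1) (by omega)
    (pa_long hPL x (n + 1)) g hgr hg hBg
  obtain ⟨k1, hk1⟩ := hPL.rcr w hw
  obtain ⟨k2, hk2⟩ := hPL.rcr w' hw'
  set z := app ψ (max k1 k2) [x] with hz
  have hzL : z ∈ L := hPL.app_mem _ x
  obtain ⟨p, q, hpq⟩ := hk1 (max k1 k2) (le_max_left _ _) x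
  obtain ⟨p', q', hpq'⟩ := hk2 (max k1 k2) (le_max_right _ _) x
  rw [← hz] at hpq hpq'
  obtain ⟨k3, hk3⟩ := hPL.rcr z hzL
  obtain ⟨k4, hk4⟩ := hPL.rcr z.reverse (hPL.rev z hzL)
  set Z := app ψ (max k3 k4) [x] with hZ
  have hZL : Z ∈ L := hPL.app_mem _ x
  obtain ⟨s, t, hst⟩ := hk3 (max k3 k4) (le_max_left _ _) x
  obtain ⟨s', t', hst'⟩ := hk4 (max k3 k4) (le_max_right _ _) x
  rw [← hZ] at hst hst'
  have key : ∀ (p q w : List α), p ++ w ++ q = z →
      Z = (s ++ p) ++ w ++ (q ++ t) ∧ Z = (s' ++ q.reverse) ++ w.reverse ++ (p.reverse ++ t') := by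
    intro p q w h
    constructor
    · rw [← hst, ← h]; simp
    · rw [← hst', ← h]; simp
  obtain ⟨e1, e2⟩ := key p q w hpq
  obtain ⟨e1', e2'⟩ := key p' q' w' hpq'
  have c1 := pa_key hRV L hPL.fac n hn f hfr hf _ hwM w rfl hwl Z hZL _ _ _ _ e1 e2
  have c2 := pa_key hRV L hPL.fac (n + 1) (by omega) g hgr hg _ hwM' w' rfl hwl' Z hZL _ _ _ _
    e1' e2'
  have l1 : z.length = p.length + w.length + q.length := by rw [← hpq]; simp only [List.length_append]
  have l2 : z.length = p'.length + w'.length + q'.length := by rw [← hpq']; simp only [List.length_append]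
  simp only [List.length_append, List.length_reverse] at c1 c2
  push_cast at c1 c2
  omega

end H767Pal
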