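import Pool.Agent.H767R2.PAL.Defs

/-!
MP_f6e863_co, task RE: reduction to the normalised situation.
-/

namespace H767Pal

theorem re_flatMap_app {α : Type} (φ : α → List α) (K : ℕ) (w : List α) :
    w.flatMap (fun x => app φ K [x]) = app φ K w := by
  induction w with
  | nil => simp [app_nil]
  | cons a t ih => rw [List.flatMap_cons, ih, ← app_append]; rfl

theorem re_app_app {α : Type} (φ : α → List α) (K k : ℕ) (w : List α) :
    app (fun x => app φ K [x]) k w = app φ (K * k) w := by
  induction k generalizing w with
  | zero => rfl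
  | succ k ih => rw [app_succ, re_flatMap_app, ih, ← app_add]; rfl

theorem re_fac_iff {α : Type} (u : ℕ → α) (w : List α) :
    w ∈ Fac u ↔ ∃ n, w <:+: (List.range n).map u := by
  constructor
  · rintro ⟨i, hi⟩
    refine ⟨i + w.length, (List.range i).map u, [], ?_⟩
    rw [List.range_add, List.map_append, List.map_map, List.append_nil]
    congr 1
  · rintro ⟨n, a, b, h⟩
    refine ⟨a.length, ?_⟩
    apply List.ext_getElem
    · simp
    · intro j h1 h2
      simp only [List.getElem_map, List.getElem_range]
      have hlen := congrArg List.length h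
      simp at hlen
      have h3 : a.length + j < (a ++ w ++ b).length := by simp; omega
      have h4 : (a ++ w ++ b)[a.length + j] = w[j] := by
        rw [List.getElem_append_left (by simp; omega), List.getElem_append_right (by omega)]
        simp
      rw [← h4]
      have : (a ++ w ++ b)[a.length + j] = ((List.range n).map u)[a.length + j]'(by
          rw [← h]; exact h3) := by
        simp only [h]
      rw [this]
      simp

theorem re_iter_fixed {α : Type} (φ : α → List α) (u : ℕ → α) (hf : Fixed φ u) (j n : ℕ) :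
    app φ j ((List.range n).map u) =
      (List.range (app φ j ((List.range n).map u)).length).map u := by
  induction j with
  | zero => simp [app_zero]
  | succ j ih =>
    rw [app_succ', ih]
    exact hf _

theorem re_head {α : Type} (φ : α → List α) (p : α → α) (hp : ∀ x, ∃ s, φ x = p x :: s)
    (k : ℕ) : ∀ x, ∃ s, app φ k [x] = (p^[k] x) :: s := by
  induction k with
  | zero => intro x; exact ⟨[], rfl⟩
  | succ k ih =>
    intro x
    obtain ⟨s, hs⟩ := ih x
    obtain ⟨t, ht⟩ := hp (p^[k] x)
    rw [app_succ', hs, Function.iterate_succ_apply', List.flatMap_cons, ht]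
    exact ⟨_, rfl⟩

theorem re_last {α : Type} (φ : α → List α) (p : α → α) (hp : ∀ x, ∃ s, φ x = s ++ [p x])
    (k : ℕ) : ∀ x, ∃ s, app φ k [x] = s ++ [p^[k] x] := by
  induction k with
  | zero => intro x; exact ⟨[], rfl⟩
  | succ k ih =>
    intro x
    obtain ⟨s, hs⟩ := ih x
    obtain ⟨t, ht⟩ := hp (p^[k] x)
    rw [app_succ', hs, Function.iterate_succ_apply', List.flatMap_append]
    simp only [List.flatMap_cons, List.flatMap_nil, List.append_nil, ht]
    exact ⟨s.flatMap φ ++ t, by simp⟩

theorem re_idem {α : Type} [Finite α] (F : α → α) (k : ℕ) (hk : 1 ≤ k) :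
    ∃ K, k ≤ K ∧ ∀ x, F^[K] (F^[K] x) = F^[K] x := by
  have : ¬ Function.Injective (fun n : ℕ => F^[n]) := by
    intro h
    exact not_injective_infinite_finite _ h
  simp only [Function.Injective, not_forall] at this
  obtain ⟨a, b, hab, hne⟩ := this
  wlog hlt : a < b generalizing a b
  · exact this b a hab.symm (Ne.symm hne) (by omega)
  obtain ⟨d, rfl⟩ := Nat.exists_eq_add_of_lt hlt
  -- period d+1
  have h1 : ∀ t, a ≤ t → F^[t + (d+1)] = F^[t] := by
    intro t ht
    obtain ⟨s, rfl⟩ := Nat.exists_eq_add_of_le ht
    have e1 : a + s + (d + 1) = s + (a + d + 1) := by ring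
    have e2 : a + s = s + a := by ring
    rw [e1, Function.iterate_add, ← hab, e2, Function.iterate_add]
  have h2 : ∀ m t, a ≤ t → F^[t + m * (d+1)] = F^[t] := by
    intro m
    induction m with
    | zero => intro t _; simp
    | succ m ih =>
      intro t ht
      have e : t + (m+1) * (d+1) = (t + m * (d+1)) + (d+1) := by ring
      rw [e, h1 _ (by omega), ih t ht]
  refine ⟨(a + k) * (d+1), ?_, ?_⟩
  · nlinarith
  · intro x
    have h3 := h2 (a+k) ((a + k) * (d+1)) (by nlinarith)
    rw [← Function.iterate_add_apply, h3]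

theorem t_RE : S_RE := by
  intro α _ φ u hprim hfix hrev hcard
  obtain ⟨k, hk, hprim⟩ := hprim
  have hne : ∀ x, φ x ≠ [] := by
    intro x hx
    have h := hprim x x
    obtain ⟨m, rfl⟩ := Nat.exists_eq_add_of_le' hk
    rw [app_succ] at h
    simp only [List.flatMap_cons, List.flatMap_nil, List.append_nil, hx, app_nil] at h
    exact absurd h List.not_mem_nil
  have hp : ∀ x, ∃ y, ∃ s, φ x = y :: s := by
    intro x
    obtain ⟨y, s, h⟩ := List.exists_cons_of_ne_nil (hne x)
    exact ⟨y, s, h⟩
  have hs : ∀ x, ∃ y, ∃ s, φ x = s ++ [y] := by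
    intro x
    exact ⟨(φ x).getLast (hne x), (φ x).dropLast, (List.dropLast_append_getLast (hne x)).symm⟩
  choose p hp using hp
  choose q hq using hs
  have hhead := re_head φ p hp
  have hlast := re_last φ q hq
  -- all large iterates contain all letters
  have hall : ∀ j, k ≤ j → ∀ a b, b ∈ app φ j [a] := by
    intro j hj a b
    obtain ⟨m, rfl⟩ := Nat.exists_eq_add_of_le hj
    rw [app_add]
    obtain ⟨s, hs⟩ := hhead m a
    rw [hs, app_cons]
    exact List.mem_append_left _ (hprim _ _)
  obtain ⟨K, hkK, hidem⟩ := re_idem (Prod.map p q) k hk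
  have hidem1 : ∀ x, p^[K] (p^[K] x) = p^[K] x := by
    intro x
    have := congrArg Prod.fst (hidem (x, x))
    simpa [Prod.map_iterate] using this
  have hidem2 : ∀ x, q^[K] (q^[K] x) = q^[K] x := by
    intro x
    have := congrArg Prod.snd (hidem (x, x))
    simpa [Prod.map_iterate] using this
  have hlen : ∀ x, 2 ≤ (app φ K [x]).length := by
    intro x
    obtain ⟨a, b, hab⟩ := Fintype.exists_pair_of_one_lt_card (α := α) (by omega)
    have ha := hall K hkK x a
    have hb := hall K hkK x b
    rcases h : app φ K [x] with _ | ⟨c, _ | ⟨d, t⟩⟩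
    · rw [h] at ha; exact absurd ha List.not_mem_nil
    · rw [h] at ha hb
      simp at ha hb
      exact absurd (ha.trans hb.symm) hab
    · simp
  have hgrow : ∀ (w : List α), 2 * w.length ≤ (app φ K w).length := by
    intro w
    induction w with
    | nil => simp
    | cons a t ih =>
      rw [app_cons, List.length_append, List.length_cons]
      have := hlen a
      omega
  have hgrow2 : ∀ j : ℕ, ∀ x, j + 1 ≤ (app (fun x => app φ K [x]) j [x]).length := by
    intro j x
    induction j with
    | zero => simp [app_zero]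
    | succ j ih =>
      rw [app_succ', re_flatMap_app]
      have := hgrow (app (fun x => app φ K [x]) j [x])
      omega
  refine ⟨K, q^[K], p^[K], ?_⟩
  constructor
  · -- fac
    intro w hw v hv
    rw [re_fac_iff] at hw ⊢
    obtain ⟨n, hn⟩ := hw
    exact ⟨n, hv.trans hn⟩
  · -- letter
    intro x
    have h1 := hprim (u 0) x
    have h2 := re_iter_fixed φ u hfix k 1
    have h3 : (List.range 1).map u = [u 0] := rfl
    rw [h3] at h2
    rw [re_fac_iff]
    refine ⟨(app φ k [u 0]).length, ?_⟩
    rw [← h2]
    obtain ⟨s, t, hst⟩ := List.append_of_mem h1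
    exact ⟨s, t, by rw [hst]; simp⟩
  · -- img
    intro w hw
    rw [re_flatMap_app]
    rw [re_fac_iff] at hw ⊢
    obtain ⟨n, hn⟩ := hw
    refine ⟨(app φ K ((List.range n).map u)).length, ?_⟩
    rw [← re_iter_fixed φ u hfix K n]
    exact app_infix φ K hn
  · -- rcr
    intro w hw
    rw [re_fac_iff] at hw
    obtain ⟨n, hn⟩ := hw
    refine ⟨n + 1, ?_⟩
    intro j hj x
    obtain ⟨m, rfl⟩ := Nat.exists_eq_add_of_le' (le_trans (by omega) hj : 1 ≤ j)
    rw [app_succ]
    simp only [List.flatMap_cons, List.flatMap_nil, List.append_nil]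
    have h1 : [u 0] <:+: app φ K [x] := by
      obtain ⟨s, t, hst⟩ := List.append_of_mem (hall K hkK x (u 0))
      exact ⟨s, t, by rw [hst]; simp⟩
    refine List.IsInfix.trans ?_ (app_infix (fun x => app φ K [x]) m h1)
    refine hn.trans ?_
    have h2 := re_iter_fixed φ u hfix (K * m) 1
    have h3 : (List.range 1).map u = [u 0] := rfl
    rw [h3, ← re_app_app] at h2
    rw [h2]
    have h4 := hgrow2 m (u 0)
    obtain ⟨r, hr⟩ := Nat.exists_eq_add_of_le
      (show n ≤ (app (fun x => app φ K [x]) m [u 0]).length by omega)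
    rw [hr, List.range_add, List.map_append]
    exact List.IsPrefix.isInfix ⟨_, rfl⟩
  · exact hrev
  · exact hlen
  · intro x; exact hlast K x
  · intro x; exact hhead K x
  · exact hidem2
  · exact hidem1

end H767Pal
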