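import Pool.Agent.H767R2.PAL.Defs

/-!
RI: infinitely many right special words of every large length contradict linear complexity.
-/

namespace H767Pal

section

variable {α : Type} {ψ : α → List α} {L : Set (List α)} {σ π : α → α}

private theorem ri_len_flatMap (h : PL ψ L σ π) (w : List α) :
    2 * w.length ≤ (w.flatMap ψ).length := by
  induction w with
  | nil => simp
  | cons x w ih =>
    rw [List.flatMap_cons, List.length_append, List.length_cons]
    have := h.len x
    omega

private theorem ri_len (h : PL ψ L σ π) (k : ℕ) (w : List α) :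
    2 ^ k * w.length ≤ (app ψ k w).length := by
  induction k with
  | zero => simp [app_zero]
  | succ k ih =>
    rw [app_succ']
    have h1 := ri_len_flatMap h (app ψ k w)
    calc 2 ^ (k + 1) * w.length = 2 * (2 ^ k * w.length) := by ring
      _ ≤ 2 * (app ψ k w).length := Nat.mul_le_mul_left 2 ih
      _ ≤ _ := h1

private theorem ri_last (h : PL ψ L σ π) {x : α} (hx : σ x = x) (k : ℕ) :
    ∃ s, app ψ k [x] = s ++ [x] := by
  induction k with
  | zero => exact ⟨[], rfl⟩
  | succ k ih =>
    obtain ⟨s, hs⟩ := ih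
    obtain ⟨t, ht⟩ := h.last x
    rw [hx] at ht
    refine ⟨app ψ k t ++ s, ?_⟩
    have h1 : [x].flatMap ψ = t ++ [x] := by simp [ht]
    rw [app_succ, h1, app_append, hs, List.append_assoc]

private theorem ri_first (h : PL ψ L σ π) {x : α} (hx : π x = x) (k : ℕ) :
    ∃ s, app ψ k [x] = x :: s := by
  induction k with
  | zero => exact ⟨[], rfl⟩
  | succ k ih =>
    obtain ⟨s, hs⟩ := ih
    obtain ⟨t, ht⟩ := h.first x
    rw [hx] at ht
    refine ⟨s ++ app ψ k t, ?_⟩
    have h1 : [x].flatMap ψ = x :: t := by simp [ht]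
    rw [app_succ, h1, app_cons, hs, List.cons_append]

private theorem ri_nested (h : PL ψ L σ π) {x : α} (hx : σ x = x) (i j : ℕ) :
    app ψ i [x] <:+ app ψ (i + j) [x] := by
  obtain ⟨s, hs⟩ := ri_last h hx j
  rw [app_add, hs, app_append]
  exact ⟨_, rfl⟩

private theorem ri_prefix (h : PL ψ L σ π) {x : α} (hx : π x = x) (i j : ℕ) :
    app ψ i [x] <+: app ψ (i + j) [x] := by
  obtain ⟨s, hs⟩ := ri_first h hx j
  rw [app_add, hs, app_cons ψ i x s]
  exact ⟨_, rfl⟩

/-- the words `Q` are right special -/
private theorem ri_special (h : PL ψ L σ π) {c e : α} (hs : σ e = e) (hp : π e = e)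
    (hec : [e, c] ∈ L) (j k : ℕ) : app ψ j (app ψ k [c]).reverse ++ [e] ∈ L := by
  obtain ⟨s, hs⟩ := ri_last h hs k
  have h1 : app ψ k [e, c] ∈ L := h.img_app k hec
  have h2 : e :: app ψ k [c] ∈ L := by
    refine h.fac _ h1 _ ⟨s, [], ?_⟩
    rw [app_cons ψ k e [c], hs]
    simp
  have h3 := h.img_app j (h.rev _ h2)
  rw [List.reverse_cons, app_append] at h3
  obtain ⟨t, ht⟩ := ri_first h hp j
  rw [ht] at h3
  refine h.fac _ h3 _ ⟨[], t, ?_⟩
  simp

private theorem ri_cons_suffix (h : PL ψ L σ π) {a : α} (ha : σ a = a) (j : ℕ) (u : List α) :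
    a :: app ψ j u <:+ app ψ j (a :: u) := by
  obtain ⟨s, hs⟩ := ri_last h ha j
  refine ⟨s, ?_⟩
  rw [app_cons ψ j a u, hs]
  simp

/-- right extendability -/
private theorem ri_ext (h : PL ψ L σ π) {c e : α} (hec : [e, c] ∈ L) (w : List α) (hw : w ∈ L) :
    ∃ a, w ++ [a] ∈ L := by
  obtain ⟨k, hk⟩ := h.rcr w hw
  obtain ⟨s, t, hst⟩ := hk k le_rfl e
  have h1 : app ψ k [e, c] ∈ L := h.img_app k hec
  rw [app_cons ψ k e [c], ← hst] at h1
  have h2 : 0 < (app ψ k [c]).length := by
    have := ri_len h k [c]
    have h3 : 0 < 2 ^ k * [c].length := by simp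
    omega
  cases htc : t ++ app ψ k [c] with
  | nil =>
    have : (t ++ app ψ k [c]).length = 0 := by rw [htc]; rfl
    rw [List.length_append] at this
    omega
  | cons x r =>
    refine ⟨x, h.fac _ h1 _ ⟨s, r, ?_⟩⟩
    have h4 : s ++ w ++ t ++ app ψ k [c] = s ++ w ++ (t ++ app ψ k [c]) := by
      simp
    rw [h4, htc]
    simp

end

theorem t_RI (hCU : S_CU) (hCL : S_CL) : S_RI := by
  intro α _ ψ L σ π h c a a' e e' u hu haa hee hσc hπc hσa hσa' hσe hσe' hπe hπe' hec hec'
    ⟨k', hk'⟩ ⟨k₁, hk₁⟩
  -- `u` is a suffix of `app k' [c]`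
  have hu1 : u <:+ app ψ k' [c] := (List.suffix_cons a' u).trans hk'
  -- (3)
  have h3 : ∀ i, 1 ≤ i → a' :: u <:+ app ψ i u := by
    intro i hi
    have e1 : app ψ i u <:+ app ψ (i + k') [c] := by
      rw [app_add]
      exact app_suffix ψ i hu1
    have e2 : a' :: u <:+ app ψ (i + k') [c] := by
      rw [add_comm]
      exact hk'.trans (ri_nested h hσc k' i)
    refine List.suffix_of_suffix_length_le e2 e1 ?_
    have e3 := ri_len h i u
    have e4 : 0 < u.length := List.length_pos_iff.2 hu
    have e5 : 2 ^ 1 ≤ 2 ^ i := Nat.pow_le_pow_right (by norm_num) hi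
    have e6 : 2 ^ 1 * u.length ≤ 2 ^ i * u.length := Nat.mul_le_mul_right _ e5
    rw [List.length_cons]
    omega
  -- (4)
  have h4 : ∀ j' j, j' < j → a' :: app ψ j' u <:+ app ψ j u := by
    intro j' j hj
    have e1 := app_suffix ψ j' (h3 (j - j') (by omega))
    rw [← app_add] at e1
    have e2 : j' + (j - j') = j := by omega
    rw [e2] at e1
    exact (ri_cons_suffix h hσa' j' u).trans e1
  have hmono : ∀ j' j, j' ≤ j → (app ψ j' u).length ≤ (app ψ j u).length := by
    intro j' j hj
    rcases hj.eq_or_lt with rfl | hj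
    · exact le_rfl
    · have := (h4 j' j hj).length_le
      rw [List.length_cons] at this
      omega
  -- (2)
  have h2 : ∀ j k, k₁ ≤ k → a :: app ψ j u <:+ app ψ j (app ψ k [c]).reverse := by
    intro j k hk
    have e1 : u.reverse ++ [a] <+: app ψ k [c] := by
      have := ri_prefix h hπc k₁ (k - k₁)
      have e2 : k₁ + (k - k₁) = k := by omega
      rw [e2] at this
      exact hk₁.trans this
    have e3 : a :: u <:+ (app ψ k [c]).reverse := by
      rw [← List.reverse_prefix, List.reverse_reverse, List.reverse_cons]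
      exact e1
    exact (ri_cons_suffix h hσa j u).trans (app_suffix ψ j e3)
  obtain ⟨C, hC⟩ := hCU α ψ L σ π h
  set N0 : ℕ := (app ψ (C + 1) u).length + 1 with hN0
  have hcount : ∀ N ≥ N0, C + 1 ≤ Set.ncard {w : List α | w.length = N ∧
      ∃ a b, a ≠ b ∧ w ++ [a] ∈ L ∧ w ++ [b] ∈ L} := by
    intro N hN
    set k : ℕ := max k₁ N with hk
    have hlenQ : ∀ j, N ≤ (app ψ j (app ψ k [c]).reverse).length := by
      intro j
      have e1 := ri_len h j (app ψ k [c]).reverse
      have e2 := ri_len h k [c]
      rw [List.length_reverse] at e1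
      have e3 : N < 2 ^ k := lt_of_le_of_lt (le_max_right k₁ N) Nat.lt_two_pow_self
      have e4 : 1 ≤ 2 ^ j := Nat.one_le_two_pow
      have e5 : 1 * (app ψ k [c]).length ≤ 2 ^ j * (app ψ k [c]).length :=
        Nat.mul_le_mul_right _ e4
      simp only [List.length_singleton, mul_one] at e2
      omega
    set f : ℕ → List α := fun j => (app ψ j (app ψ k [c]).reverse).drop
      ((app ψ j (app ψ k [c]).reverse).length - N) with hf
    have hfs : ∀ j, f j <:+ app ψ j (app ψ k [c]).reverse := fun j => List.drop_suffix _ _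
    have hfl : ∀ j, (f j).length = N := by
      intro j
      have := hlenQ j
      simp only [hf, List.length_drop]
      omega
    have hfin : {w : List α | w.length = N ∧
        ∃ a b, a ≠ b ∧ w ++ [a] ∈ L ∧ w ++ [b] ∈ L}.Finite :=
      (List.finite_length_eq α N).subset fun w hw => hw.1
    have hne : ∀ i j, i < j → j < C + 1 → f i ≠ f j := by
      intro i j hij hj heq
      have hlen1 : (app ψ i u).length + 1 ≤ N := by
        have := hmono i (C + 1) (by omega)
        omega
      have s1 : a :: app ψ i u <:+ f i := by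
        refine List.suffix_of_suffix_length_le (h2 i k (le_max_left _ _)) (hfs i) ?_
        rw [hfl, List.length_cons]
        exact hlen1
      have s2 : a' :: app ψ i u <:+ f j := by
        have e1 : a' :: app ψ i u <:+ app ψ j (app ψ k [c]).reverse :=
          (h4 i j hij).trans ((List.suffix_cons a _).trans (h2 j k (le_max_left _ _)))
        refine List.suffix_of_suffix_length_le e1 (hfs j) ?_
        rw [hfl, List.length_cons]
        exact hlen1
      rw [← heq] at s2
      have s3 : a :: app ψ i u <:+ a' :: app ψ i u :=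
        List.suffix_of_suffix_length_le s1 s2 (by simp)
      have s4 := s3.eq_of_length (by simp)
      exact haa (List.cons.inj s4).1
    refine Set.le_ncard_of_inj_on_range f ?_ ?_ hfin
    · intro j _
      refine ⟨hfl j, e, e', hee, ?_, ?_⟩
      · refine h.fac _ (ri_special h hσe hπe hec j k) _ ?_
        obtain ⟨s, hs⟩ := hfs j
        refine ⟨s, [], ?_⟩
        rw [← hs]
        simp
      · refine h.fac _ (ri_special h hσe' hπe' hec' j k) _ ?_
        obtain ⟨s, hs⟩ := hfs j
        refine ⟨s, [], ?_⟩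
        rw [← hs]
        simp
    · intro i hi j hj heq
      rcases lt_trichotomy i j with hij | hij | hij
      · exact absurd heq (hne i j hij hj)
      · exact hij
      · exact absurd heq.symm (hne j i hij hi)
  have hkey := hCL α L h.fac (ri_ext h hec) (C + 1) N0 hcount ((C + 1) * N0 + 1) (by nlinarith)
  have hkey2 := hC ((C + 1) * N0 + 1) (by omega)
  have h5 := hkey.trans hkey2
  have h6 : (C + 1) * N0 + 1 - N0 = C * N0 + 1 := by
    have : (C + 1) * N0 = C * N0 + N0 := by ring
    omega
  rw [h6] at h5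
  nlinarith

end H767Pal
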