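import Pool.Agent.H767R2.PAL.Defs

/-! RV: window functional of the reversed word. -/

namespace H767Pal

theorem rv_W {α : Type} (n : ℕ) (f : List α → ℚ) (hn : 1 ≤ n) (l : List α) :
    W n f l = ∑ i ∈ Finset.range (l.length + 1 - n), f ((l.drop i).take n) := by
  induction l with
  | nil =>
    have h : ([] : List α).length + 1 - n = 0 := by
      change 0 + 1 - n = 0
      omega
    rw [W, h, Finset.range_zero, Finset.sum_empty]
  | cons x l ih =>
    rw [W, ih]
    by_cases h : n ≤ l.length + 1
    · have e : (x :: l).length + 1 - n = (l.length + 1 - n) + 1 := by
        rw [List.length_cons]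
        omega
      rw [if_pos h, e, Finset.sum_range_succ', add_comm]
      rfl
    · have e : (x :: l).length + 1 - n = 0 := by
        rw [List.length_cons]
        omega
      have e' : l.length + 1 - n = 0 := by omega
      rw [if_neg h, e, e', Finset.range_zero, Finset.sum_empty, Finset.sum_empty, add_zero]

theorem t_RV : S_RV := by
  intro α n f hn w
  rw [rv_W n f hn, rv_W n _ hn, ← Finset.sum_range_reflect, List.length_reverse]
  refine Finset.sum_congr rfl fun j hj => ?_
  rw [Finset.mem_range] at hj
  congr 1
  rw [List.drop_reverse, List.take_reverse, List.length_take]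
  congr 1
  rw [List.take_drop]
  have e1 : w.length - (w.length + 1 - n - 1 - j) = n + j := by omega
  have e2 : min (n + j) w.length - n = j := by omega
  rw [e1, e2]
  congr 2
  omega

end H767Pal
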