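import Pool.Agent.H767R2.PAL.Defs

/-!
Task UR: infinitely many palindromic factors imply closure under reversal.
-/

namespace H767Pal

theorem ur_fac_iff {α : Type} {u : ℕ → α} {w : List α} :
    w ∈ Fac u ↔ ∃ i, ∀ (j : ℕ) (h : j < w.length), w[j] = u (i + j) := by
  constructor
  · rintro ⟨i, hi⟩
    refine ⟨i, fun j h => ?_⟩
    have h1 : j < ((List.range w.length).map (fun j => u (i + j))).length := by simpa using h
    have h2 : w[j] = ((List.range w.length).map (fun j => u (i + j)))[j] :=
      List.getElem_of_eq hi h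
    rw [h2]
    simp
  · rintro ⟨i, hi⟩
    refine ⟨i, ?_⟩
    apply List.ext_getElem
    · simp
    · intro j h1 h2
      rw [hi j h1]
      simp

theorem ur_infix {α : Type} {u : ℕ → α} {v w : List α} (hv : v ∈ Fac u) (h : w <:+: v) :
    w ∈ Fac u := by
  obtain ⟨i, hi⟩ := ur_fac_iff.1 hv
  obtain ⟨a, b, rfl⟩ := h
  refine ur_fac_iff.2 ⟨i + a.length, fun j hj => ?_⟩
  have h1 := hi (a.length + j) (by simp; omega)
  rw [List.getElem_append_left (by simp; omega), List.getElem_append_right (by omega)] at h1
  simp only [Nat.add_sub_cancel_left] at h1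
  rw [h1, add_assoc]

/-- prefixes of the infinite word -/
def urPre {α : Type} (u : ℕ → α) (n : ℕ) : List α := (List.range n).map u

theorem ur_pre_len {α : Type} (u : ℕ → α) (n : ℕ) : (urPre u n).length = n := by
  simp [urPre]

theorem ur_pre_get {α : Type} (u : ℕ → α) (n j : ℕ) (h : j < (urPre u n).length) :
    (urPre u n)[j] = u j := by
  simp [urPre]

theorem ur_fixed {α : Type} {φ : α → List α} {u : ℕ → α} (hf : Fixed φ u) (m : ℕ) :
    ∀ n, app φ m (urPre u n) = urPre u (app φ m (urPre u n)).length := by
  induction m with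
  | zero => intro n; simp only [app_zero, ur_pre_len]
  | succ m ih =>
    intro n
    rw [app_succ]
    have h1 : (urPre u n).flatMap φ = urPre u ((urPre u n).flatMap φ).length := hf n
    rw [h1]
    exact ih _

theorem ur_len_card {α : Type} [Fintype α] {φ : α → List α} {k : ℕ}
    (hk : ∀ a b : α, b ∈ app φ k [a]) (a : α) : Fintype.card α ≤ (app φ k [a]).length := by
  classical
  have h1 : (Finset.univ : Finset α) ⊆ (app φ k [a]).toFinset := by
    intro b _
    rw [List.mem_toFinset]
    exact hk a b
  exact (Finset.card_le_card h1).trans (List.toFinset_card_le _)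

theorem ur_len_double {α : Type} [Fintype α] {φ : α → List α} {k : ℕ}
    (hk : ∀ a b : α, b ∈ app φ k [a]) (hc : 2 ≤ Fintype.card α) (v : List α) :
    2 * v.length ≤ (app φ k v).length := by
  induction v with
  | nil => simp
  | cons x v ih =>
    rw [app_cons, List.length_append, List.length_cons]
    have := ur_len_card hk x
    omega

theorem ur_len_pow {α : Type} [Fintype α] {φ : α → List α} {k : ℕ}
    (hk : ∀ a b : α, b ∈ app φ k [a]) (hc : 2 ≤ Fintype.card α) (a : α) (j : ℕ) :
    2 ^ j ≤ (app φ (k * j) [a]).length := by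
  induction j with
  | zero => simp [app_zero]
  | succ j ih =>
    have h1 : k * (j + 1) = k + k * j := by ring
    rw [h1, app_add]
    have := ur_len_double hk hc (app φ (k * j) [a])
    rw [pow_succ]
    omega

/-- prefixes of the images of prefixes -/
theorem ur_block {α : Type} {φ : α → List α} {u : ℕ → α} (hf : Fixed φ u) (m n j : ℕ)
    (h : j < (app φ m [u n]).length) :
    (app φ m [u n])[j] = u ((app φ m (urPre u n)).length + j) := by
  have h1 : urPre u (n + 1) = urPre u n ++ [u n] := by
    simp [urPre, List.range_succ]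
  have h2 : app φ m (urPre u n) ++ app φ m [u n] =
      urPre u (app φ m (urPre u (n + 1))).length := by
    rw [← ur_fixed hf m (n + 1), h1, app_append]
  have h3 : (app φ m (urPre u n)).length + j <
      (app φ m (urPre u n) ++ app φ m [u n]).length := by
    rw [List.length_append]; omega
  have h4 := List.getElem_of_eq h2 h3
  rw [List.getElem_append_right (by omega)] at h4
  simp only [Nat.add_sub_cancel_left] at h4
  rw [h4, ur_pre_get]

theorem ur_main {α : Type} [Fintype α] {φ : α → List α} {u : ℕ → α} {k : ℕ}
    (hk : ∀ a b : α, b ∈ app φ k [a]) (hf : Fixed φ u) (hc : 2 ≤ Fintype.card α)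
    {w : List α} (hw : w ∈ Fac u) (hne : w ≠ []) :
    ∃ T : ℕ, ∀ v ∈ Fac u, T ≤ v.length → w <:+: v := by
  obtain ⟨i, hi⟩ := ur_fac_iff.1 hw
  -- w is a factor of an iterated image of `u 0`
  obtain ⟨j, hj⟩ : ∃ j, i + w.length ≤ 2 ^ j := ⟨i + w.length, Nat.lt_two_pow_self.le⟩
  have hlen := ur_len_pow hk hc (u 0) j
  have hpre : app φ (k * j) [u 0] = urPre u (app φ (k * j) [u 0]).length := by
    have := ur_fixed hf (k * j) 1
    simpa [urPre] using this
  have hw0 : w <:+: app φ (k * j) [u 0] := by
    have h1 : w = ((app φ (k * j) [u 0]).drop i).take w.length := by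
      apply List.ext_getElem
      · rw [List.length_take, List.length_drop]; omega
      · intro t h1 h2
        rw [List.getElem_take, List.getElem_drop, hi t h1]
        have h3 : i + t < (app φ (k * j) [u 0]).length := by omega
        rw [List.getElem_of_eq hpre h3, ur_pre_get]
    rw [h1]
    exact (List.take_prefix _ _).isInfix.trans (List.drop_suffix _ _).isInfix
  -- w is a factor of all images of order m
  obtain ⟨m, hm⟩ : ∃ m, m = k * j + k := ⟨_, rfl⟩
  have hwm : ∀ x, w <:+: app φ m [x] := by
    intro x
    have h1 : [u 0] <:+: app φ k [x] := by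
      obtain ⟨s, t, hst⟩ := List.append_of_mem (hk x (u 0))
      exact ⟨s, t, by rw [hst]; simp⟩
    rw [hm, app_add]
    exact hw0.trans (app_infix φ (k * j) h1)
  have hpos : ∀ x, 1 ≤ (app φ m [x]).length := by
    intro x
    have h1 : w.length ≤ (app φ m [x]).length := (hwm x).length_le
    have h2 : 0 < w.length := List.length_pos_iff.2 hne
    omega
  obtain ⟨M, hM⟩ : ∃ M, ∀ x, (app φ m [x]).length ≤ M :=
    ⟨Finset.univ.sup (fun x => (app φ m [x]).length), fun x =>
      Finset.le_sup (f := fun x => (app φ m [x]).length) (Finset.mem_univ x)⟩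
  refine ⟨2 * M, fun v hv hT => ?_⟩
  obtain ⟨s, hs⟩ := ur_fac_iff.1 hv
  -- the block
  set Lf : ℕ → ℕ := fun n => (app φ m (urPre u n)).length with hLf
  have hL0 : Lf 0 = 0 := by simp [hLf, urPre, app_nil]
  have hLs : ∀ n, Lf (n + 1) = Lf n + (app φ m [u n]).length := by
    intro n
    have h1 : urPre u (n + 1) = urPre u n ++ [u n] := by
      simp [urPre, List.range_succ]
    simp only [hLf, h1, app_append, List.length_append]
  have hLge : ∀ n, n ≤ Lf n := by
    intro n
    induction n with
    | zero => exact Nat.zero_le _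
    | succ n ih => rw [hLs]; have := hpos (u n); omega
  classical
  have hex : ∃ n, s ≤ Lf n := ⟨s, hLge s⟩
  obtain ⟨n, hn1, hn2⟩ : ∃ n, s ≤ Lf n ∧ Lf n ≤ s + M := by
    refine ⟨Nat.find hex, Nat.find_spec hex, ?_⟩
    rcases Nat.eq_zero_or_pos (Nat.find hex) with h0 | h0
    · rw [h0, hL0]; omega
    · obtain ⟨n', hn'⟩ : ∃ n', Nat.find hex = n' + 1 := ⟨Nat.find hex - 1, by omega⟩
      have h1 : ¬ s ≤ Lf n' := Nat.find_min hex (by omega)
      rw [hn', hLs]
      have := hM (u n')
      omega
  have hblk := hM (u n)
  refine (hwm (u n)).trans ?_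
  have h1 : app φ m [u n] = (v.drop (Lf n - s)).take (app φ m [u n]).length := by
    apply List.ext_getElem
    · rw [List.length_take, List.length_drop]; omega
    · intro t h1 h2
      rw [List.getElem_take, List.getElem_drop, ur_block hf m n t h1]
      have h3 : Lf n - s + t < v.length := by omega
      rw [hs _ h3]
      congr 1
      show Lf n + t = s + (Lf n - s + t)
      omega
  rw [h1]
  exact (List.take_prefix _ _).isInfix.trans (List.drop_suffix _ _).isInfix

/-- Task UR. -/
theorem t_UR : S_UR := by
  intro α _ φ u hP hf hinf w hw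
  obtain ⟨k, -, hk⟩ := hP
  rcases Nat.lt_or_ge (Fintype.card α) 2 with hc | hc
  · have hs : Subsingleton α := Fintype.card_le_one_iff_subsingleton.1 (by omega)
    have : w.reverse = w := by
      apply List.ext_getElem
      · simp
      · intro j _ _
        exact Subsingleton.elim _ _
    rw [this]
    exact hw
  · by_cases hne : w = []
    · rw [hne] at hw ⊢
      exact hw
    · obtain ⟨T, hT⟩ := ur_main hk hf hc hw hne
      have hfin : Set.Finite {v : List α | v.length < T} := List.finite_length_lt α T
      obtain ⟨p, ⟨hp1, hp2⟩, hp3⟩ := hinf.exists_notMem_finite hfin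
      have hp4 : T ≤ p.length := by
        by_contra h
        exact hp3 (by simpa using h)
      have h1 := hT p hp1 hp4
      have h2 : w.reverse <:+: p.reverse := List.reverse_infix.2 h1
      rw [hp2] at h2
      exact ur_infix hp1 h2

end H767Pal
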